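import Pool.Agent.Lib_MP_22d2c8_hz.Basic

/-!
# The number of changes along chains (Markov)
-/

namespace Pool.Agent.Lib_MP_22d2c8_hz

open Finset

theorem telescope (n : ℕ → ℕ) (M j : ℕ) (hj : j ≤ M) :
    ∑ l ∈ Ico j M, n l * ∏ l' ∈ Ico (l + 1) M, (1 + n l') + 1 = ∏ l ∈ Ico j M, (1 + n l) := by
  induction hk : M - j generalizing j with
  | zero =>
    have : j = M := by omega
    subst this
    simp
  | succ k ih =>
    have hj' : j < M := by omega
    have h := ih (j + 1) (by omega) (by omega)
    rw [sum_eq_sum_Ico_succ_bot hj', prod_eq_prod_Ico_succ_bot hj', add_assoc, h]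
    ring

/-- A potential with mixed radix: the vector of the numbers `a l` of a state increases
lexicographically at every change. -/
theorem count_changes (M : ℕ) (n : ℕ → ℕ) (a : ℕ → ℕ → ℕ) (han : ∀ i, ∀ l < M, a i l ≤ n l)
    (S : ℕ → Prop) [DecidablePred S]
    (h0 : ∀ i, ¬ S i → ∀ l < M, a i l = a (i + 1) l)
    (h1 : ∀ i, S i → ∃ l < M, a i l < a (i + 1) l ∧ ∀ l' < l, a i l' = a (i + 1) l') (r : ℕ) :
    ((range r).filter S).card ≤ ∏ l ∈ range M, (1 + n l) - 1 := by
  set W : ℕ → ℕ := fun l => ∏ l' ∈ Ico (l + 1) M, (1 + n l') with hW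
  set Φ : ℕ → ℕ := fun i => ∑ l ∈ Ico 0 M, a i l * W l with hΦ
  have hmax : ∀ i, Φ i + 1 ≤ ∏ l ∈ Ico 0 M, (1 + n l) := by
    intro i
    rw [← telescope n M 0 (Nat.zero_le _)]
    refine Nat.add_le_add_right (sum_le_sum fun l hl => ?_) 1
    exact Nat.mul_le_mul_right _ (han i l (mem_Ico.1 hl).2)
  have hstep : ∀ i, S i → Φ i + 1 ≤ Φ (i + 1) := by
    intro i hi
    obtain ⟨l, hlM, hlt, heq⟩ := h1 i hi
    have e1 : ∀ j, Φ j = ∑ l' ∈ Ico 0 l, a j l' * W l' + (a j l * W l +
        ∑ l' ∈ Ico (l + 1) M, a j l' * W l') := by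
      intro j
      rw [hΦ]
      show ∑ l ∈ Ico 0 M, a j l * W l = _
      rw [← sum_Ico_consecutive _ (Nat.zero_le l) hlM.le, sum_eq_sum_Ico_succ_bot hlM]
    rw [e1 i, e1 (i + 1)]
    have e2 : ∑ l' ∈ Ico 0 l, a i l' * W l' = ∑ l' ∈ Ico 0 l, a (i + 1) l' * W l' :=
      sum_congr rfl fun l' hl' => by rw [heq l' (mem_Ico.1 hl').2]
    have e3 : ∑ l' ∈ Ico (l + 1) M, a i l' * W l' + 1 ≤ W l := by
      rw [hW]
      show _ ≤ ∏ l' ∈ Ico (l + 1) M, (1 + n l')
      rw [← telescope n M (l + 1) hlM]
      refine Nat.add_le_add_right (sum_le_sum fun l' hl' => ?_) 1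
      exact Nat.mul_le_mul_right _ (han i l' (mem_Ico.1 hl').2)
    have e4 : a i l * W l + W l ≤ a (i + 1) l * W l := by
      rw [← Nat.succ_mul]
      exact Nat.mul_le_mul_right _ hlt
    omega
  have hstep' : ∀ i, ¬ S i → Φ (i + 1) = Φ i := by
    intro i hi
    exact sum_congr rfl fun l hl => by rw [h0 i hi l (mem_Ico.1 hl).2]
  have hcount : ∀ r, ((range r).filter S).card + Φ 0 ≤ Φ r := by
    intro r
    induction r with
    | zero => simp
    | succ r ih =>
      rw [range_add_one, filter_insert]
      by_cases hr : S r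
      · rw [if_pos hr, card_insert_of_notMem (by simp)]
        have := hstep r hr
        omega
      · rw [if_neg hr, hstep' r hr]
        exact ih
  have h2 := hcount r
  have h3 := hmax r
  rw [← range_eq_Ico] at h3
  omega

namespace Circuit

variable {ι κ : Type} (C : Circuit ι κ)

variable [Fintype ι]

theorem mem_entries {w : ι ⊕ Fin C.size} : w ∈ C.entries ↔ C.IsEntry w := by
  classical
  simp [entries]

/-- The number of changes for a level function. -/
theorem changes_of_level {M : ℕ} {lev : ι ⊕ Fin C.size → ℕ} (hl : C.IsLevel M lev) :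
    C.ChangesLE (∏ l ∈ range M, (1 + (C.entries.filter fun w => lev w = l).card) - 1) := by
  classical
  obtain ⟨hl1, hl2, hl3⟩ := hl
  intro r y hy
  refine le_trans (card_le_card fun i hi => ?_)
    (count_changes M (fun l => (C.entries.filter fun w => lev w = l).card)
    (fun i l => (C.entries.filter fun w => lev w = l ∧ C.val (y i) w = true).card)
    (fun i l _ => card_le_card fun w hw => ?_)
    (fun i => ∃ w, C.IsEntry w ∧ C.val (y i) w ≠ C.val (y (i + 1)) w) ?_ ?_ r)
  · obtain ⟨hi1, g, hm, hg⟩ := mem_filter.1 hi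
    refine mem_filter.2 ⟨hi1, ?_⟩
    by_contra hcon
    push Not at hcon
    refine hg ?_
    rw [val_inr, val_inr]
    congr 1
    funext j
    exact hcon _ ⟨g, j, hm, rfl⟩
  · rw [mem_filter] at hw ⊢
    exact ⟨hw.1, hw.2.1⟩
  · intro i hi l _
    push Not at hi
    show (C.entries.filter fun w => lev w = l ∧ C.val (y i) w = true).card =
      (C.entries.filter fun w => lev w = l ∧ C.val (y (i + 1)) w = true).card
    congr 1
    refine filter_congr fun w hw => ?_
    rw [hi w (C.mem_entries.1 hw)]
  · intro i hi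
    have hex : ∃ l, ∃ w, C.IsEntry w ∧ lev w = l ∧ C.val (y i) w ≠ C.val (y (i + 1)) w := by
      obtain ⟨w, hw, hne⟩ := hi
      exact ⟨lev w, w, hw, rfl, hne⟩
    set l := Nat.find hex with hldef
    obtain ⟨w, hw, hwl, hne⟩ := Nat.find_spec hex
    have hmin : ∀ v, C.IsEntry v → lev v < l → C.val (y i) v = C.val (y (i + 1)) v := by
      intro v hv hvl
      by_contra hcon
      exact Nat.find_min hex hvl ⟨v, hv, rfl, hcon⟩
    have hup : ∀ v, lev v ≤ l → C.val (y i) v ≤ C.val (y (i + 1)) v := by
      intro v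
      refine C.induct (p := fun v => lev v ≤ l → C.val (y i) v ≤ C.val (y (i + 1)) v) ?_ ?_ v
      · intro j _
        rw [val_inl, val_inl]
        exact hy (Nat.le_succ i) j
      · intro g hg hgl
        rw [val_inr, val_inr]
        by_cases hm : Monotone (C.op g)
        · exact hm fun j => hg j ((hl1 g j).trans hgl)
        · refine le_of_eq ?_
          congr 1
          funext j
          exact hmin _ ⟨g, j, hm, rfl⟩ ((hl2 g j hm).trans_le hgl)
    have hw1 : C.val (y i) w = false ∧ C.val (y (i + 1)) w = true := by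
      have h1 := hup w hwl.le
      revert h1 hne
      rcases C.val (y i) w <;> rcases C.val (y (i + 1)) w <;> simp
    have hlM : l < M := by
      rw [← hwl.trans hldef.symm]
      exact hl3 w hw
    refine ⟨l, hlM, ?_, fun l' hl' => ?_⟩
    · refine card_lt_card ?_
      rw [ssubset_iff_of_subset]
      · refine ⟨w, mem_filter.2 ⟨C.mem_entries.2 hw, hwl, hw1.2⟩, fun hcon => ?_⟩
        rw [mem_filter, hw1.1] at hcon
        exact absurd hcon.2.2 (by simp)
      · intro v hv
        rw [mem_filter] at hv ⊢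
        refine ⟨hv.1, hv.2.1, ?_⟩
        have h1 := hup v hv.2.1.le
        rw [hv.2.2] at h1
        exact Bool.eq_true_of_true_le h1
    · show (C.entries.filter fun w => lev w = l' ∧ C.val (y i) w = true).card =
        (C.entries.filter fun w => lev w = l' ∧ C.val (y (i + 1)) w = true).card
      congr 1
      refine filter_congr fun v hv => ?_
      constructor
      · rintro ⟨h1, h2⟩
        refine ⟨h1, ?_⟩
        rw [← hmin v (C.mem_entries.1 hv) (h1 ▸ hl'), h2]
      · rintro ⟨h1, h2⟩
        refine ⟨h1, ?_⟩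
        rw [hmin v (C.mem_entries.1 hv) (h1 ▸ hl'), h2]

/-- The number of changes for `t` entry vertices. -/
theorem changes_entries : C.ChangesLE (2 ^ C.entries.card - 1) := by
  classical
  set lev : ι ⊕ Fin C.size → ℕ := Sum.elim (fun _ => 0) (fun g => g.1 + 1) with hlev
  have hl : C.IsLevel (C.size + 1) lev := by
    have h2 : ∀ g j, lev (C.src g j) < lev (Sum.inr g) := by
      intro g j
      rcases h : C.src g j with i | h'
      · simp [hlev]
      · have h1 : h'.1 < g.1 := C.src_lt g j h' h
        simp [hlev, h1]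
    refine ⟨fun g j => (h2 g j).le, fun g j _ => h2 g j, fun w _ => ?_⟩
    rcases w with i | g
    · simp [hlev]
    · have := g.2
      simp [hlev]
  have h := C.changes_of_level hl
  intro r y hy
  refine (h r y hy).trans (Nat.sub_le_sub_right ?_ 1)
  calc ∏ l ∈ range (C.size + 1), (1 + (C.entries.filter fun w => lev w = l).card)
      ≤ ∏ l ∈ range (C.size + 1), 2 ^ (C.entries.filter fun w => lev w = l).card := by
        refine prod_le_prod' fun l _ => ?_
        rw [add_comm]
        exact Nat.lt_two_pow_self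
    _ = 2 ^ ∑ l ∈ range (C.size + 1), (C.entries.filter fun w => lev w = l).card := by
        rw [prod_pow_eq_pow_sum]
    _ = 2 ^ C.entries.card := by
        congr 1
        rw [← card_eq_sum_card_fiberwise (f := lev) (s := C.entries) (t := range (C.size + 1))]
        intro w _
        rw [mem_coe, mem_range]
        rcases w with i | g
        · simp [hlev]
        · have := g.2
          simp [hlev]

end Circuit

end Pool.Agent.Lib_MP_22d2c8_hz
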