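import Pool.Agent.Lib_MP_22d2c8_hz.Basic

/-!
# Few changes of the values of the non-monotone gates
-/

namespace Pool.Agent.Lib_MP_22d2c8_hz

open Finset

/-- The input with the set `X` of ones. -/
def ind {ι : Type} [DecidableEq ι] (X : Finset ι) : ι → Bool := fun i => decide (i ∈ X)

theorem ind_mono {ι : Type} [DecidableEq ι] {X Y : Finset ι} (h : X ⊆ Y) : ind X ≤ ind Y := by
  intro i
  unfold ind
  by_cases hi : i ∈ X
  · simp [hi, h hi]
  · simp [hi]

namespace Circuit

variable {ι κ : Type} (C : Circuit ι κ) [DecidableEq ι]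

/-- A base point above which all small windows in `N` are quiet. -/
theorem exists_quiet {T : ℕ} (hT : C.ChangesLE T) (d : ℕ) (X0 N : Finset ι) :
    ∃ Y : Finset ι, Y ⊆ N ∧ Y.card ≤ d * T ∧ ∀ z ⊆ N, z.card ≤ d → ∀ g, ¬ Monotone (C.op g) →
      C.val (ind (X0 ∪ (Y ∪ z))) (Sum.inr g) = C.val (ind (X0 ∪ Y)) (Sum.inr g) := by
  classical
  have hZ : ∀ Y : Finset ι, ∃ z : Finset ι, z ⊆ N ∧ z.card ≤ d ∧
      ((∃ z ⊆ N, z.card ≤ d ∧ ∃ g, ¬ Monotone (C.op g) ∧
        C.val (ind (X0 ∪ (Y ∪ z))) (Sum.inr g) ≠ C.val (ind (X0 ∪ Y)) (Sum.inr g)) →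
        ∃ g, ¬ Monotone (C.op g) ∧
          C.val (ind (X0 ∪ (Y ∪ z))) (Sum.inr g) ≠ C.val (ind (X0 ∪ Y)) (Sum.inr g)) := by
    intro Y
    by_cases h : ∃ z ⊆ N, z.card ≤ d ∧ ∃ g, ¬ Monotone (C.op g) ∧
        C.val (ind (X0 ∪ (Y ∪ z))) (Sum.inr g) ≠ C.val (ind (X0 ∪ Y)) (Sum.inr g)
    · obtain ⟨z, hzN, hz, hw⟩ := h
      exact ⟨z, hzN, hz, fun _ => hw⟩
    · exact ⟨∅, empty_subset _, by simp, fun h' => absurd h' h⟩
  choose Z hZN hZd hZ using hZ
  let F : ℕ → Finset ι := fun n => Nat.rec ∅ (fun _ X => X ∪ Z X) n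
  have hF : ∀ n, F (n + 1) = F n ∪ Z (F n) := fun n => rfl
  have hFN : ∀ n, F n ⊆ N := by
    intro n
    induction n with
    | zero => exact empty_subset _
    | succ n ih =>
      rw [hF]
      exact union_subset ih (hZN _)
  have hcard : ∀ n, (F n).card ≤ d * n := by
    intro n
    induction n with
    | zero => simp [F]
    | succ n ih =>
      rw [hF]
      refine (card_union_le _ _).trans ?_
      have := hZd (F n)
      rw [Nat.mul_succ]
      omega
  have hmono : Monotone fun n => ind (X0 ∪ F n) :=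
    monotone_nat_of_le_succ fun n => ind_mono (by
      rw [hF]
      exact union_subset_union_right subset_union_left)
  have h := hT (T + 1) (fun n => ind (X0 ∪ F n)) hmono
  have hex : ∃ i ∈ range (T + 1), ¬ ∃ g, ¬ Monotone (C.op g) ∧
      C.val (ind (X0 ∪ F i)) (Sum.inr g) ≠ C.val (ind (X0 ∪ F (i + 1))) (Sum.inr g) := by
    by_contra hcon
    push Not at hcon
    rw [filter_true_of_mem (fun i hi => hcon i hi), card_range] at h
    omega
  obtain ⟨i, hi, hq⟩ := hex
  refine ⟨F i, hFN i,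
    (hcard i).trans (Nat.mul_le_mul_left _ (by rw [mem_range] at hi; omega)), ?_⟩
  intro z hzN hz w hw
  by_contra hne
  obtain ⟨w', hw', hne'⟩ := hZ (F i) ⟨z, hzN, hz, w, hw, hne⟩
  refine hq ⟨w', hw', ?_⟩
  rw [hF]
  exact hne'.symm

theorem exists_quiet_univ [Fintype ι] {T : ℕ} (hT : C.ChangesLE T) (d : ℕ) :
    ∃ X : Finset ι, X.card ≤ d * T ∧ ∀ z : Finset ι, z.card ≤ d → ∀ g, ¬ Monotone (C.op g) →
      C.val (ind (X ∪ z)) (Sum.inr g) = C.val (ind X) (Sum.inr g) := by
  obtain ⟨Y, -, hY, h⟩ := C.exists_quiet hT d ∅ univ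
  refine ⟨Y, hY, fun z hz g hg => ?_⟩
  have h2 := h z (subset_univ _) hz g hg
  rwa [empty_union, empty_union] at h2

omit [DecidableEq ι] in
/-- If the values of the non-monotone gates do not change then the values of all vertices
increase. -/
theorem val_le_of_quiet {x y : ι → Bool} (hxy : x ≤ y)
    (hq : ∀ g, ¬ Monotone (C.op g) → C.val y (Sum.inr g) = C.val x (Sum.inr g))
    (w : ι ⊕ Fin C.size) :
    C.val x w ≤ C.val y w := by
  classical
  refine C.induct (p := fun w => C.val x w ≤ C.val y w) ?_ ?_ w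
  · intro i
    rw [val_inl, val_inl]
    exact hxy i
  · intro g hg
    by_cases hm : Monotone (C.op g)
    · rw [val_inr, val_inr]
      exact hm fun j => hg j
    · exact (hq g hm).ge

/-- Circuits for disjunctions with few changes. Only the variables in `N` are used; the variables in
`X0` are set to 1, the others to 0. -/
theorem changes_bound [Fintype ι] (X0 N : Finset ι) (K : Finset κ)
    (A : κ → Finset ι) (d D T : ℕ) {e m : ℕ} (he : 1 ≤ e) (hA : ∀ k ∈ K, e < (A k).card)
    (hAN : ∀ k ∈ K, A k ⊆ N)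
    (hAA : ∀ S : Finset ι, e < S.card → (K.filter fun k => S ⊆ A k).card ≤ m)
    (hD : ∀ i ∈ N, (K.filter fun k => i ∈ A k).card ≤ D) (h1 : 1 ≤ d)
    (hC : ∀ z ⊆ N, ∀ k ∈ K, C.val (ind (X0 ∪ z)) (C.out k) = true ↔ ∃ i ∈ A k, i ∈ z)
    (hT : C.ChangesLE T) :
    ∑ k ∈ K, min (A k).card (e * (d + 1)) ≤
        e * (m * C.monoWires) + e * (d + 1) * (D * (d * T)) ∧
      ((∀ g ∈ C.monoGates, C.ar g ≤ 2) →
        ∑ k ∈ K, min ((A k).card - e) (e * d) ≤
          e * (m * C.monoGates.card) + e * d * (D * (d * T))) := by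
  classical
  obtain ⟨Y, hYN, hY, hq⟩ := C.exists_quiet hT d X0 N
  have hle : ∀ z ⊆ N, z.card ≤ d → ∀ w,
      C.val (ind (X0 ∪ Y)) w ≤ C.val (ind (X0 ∪ (Y ∪ z))) w :=
    fun z hzN hz w => C.val_le_of_quiet (ind_mono (union_subset_union_right subset_union_left))
      (fun g hg => hq z hzN hz g hg) w
  set K' : Finset κ := K.filter fun k => Disjoint (A k) Y with hK'
  set c : ι ⊕ Fin C.size → Finset ι → Prop := fun w z =>
    C.val (ind (X0 ∪ Y)) w = false ∧ C.val (ind (X0 ∪ (Y ∪ (z ∩ N)))) w = true with hc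
  have hout : ∀ k ∈ K', ∀ z ⊆ N, C.val (ind (X0 ∪ (Y ∪ z))) (C.out k) = true ↔
      ∃ i ∈ A k, i ∈ z := by
    intro k hk z hz
    have hkY : Disjoint (A k) Y := (mem_filter.1 hk).2
    rw [hC (Y ∪ z) (union_subset hYN hz) k (mem_filter.1 hk).1]
    constructor
    · rintro ⟨i, hi, hiz⟩
      exact ⟨i, hi, (mem_union.1 hiz).resolve_left (disjoint_left.1 hkY hi)⟩
    · rintro ⟨i, hi, hiz⟩
      exact ⟨i, hi, mem_union_right _ hiz⟩
  have hout0 : ∀ k ∈ K', C.val (ind (X0 ∪ Y)) (C.out k) = false := by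
    intro k hk
    have h2 := hout k hk ∅ (empty_subset _)
    rw [union_empty] at h2
    rw [← Bool.not_eq_true, h2]
    rintro ⟨i, -, hi⟩
    exact absurd hi (notMem_empty i)
  have hL : ∀ k ∈ K', L c (C.out k) = A k := by
    intro k hk
    ext i
    rw [mem_L]
    constructor
    · rintro ⟨-, h3⟩
      rw [hout k hk _ inter_subset_right] at h3
      obtain ⟨j, hj, hjx⟩ := h3
      rw [← mem_singleton.1 (mem_inter.1 hjx).1]
      exact hj
    · intro hi
      refine ⟨hout0 k hk, ?_⟩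
      rw [hout k hk _ inter_subset_right]
      exact ⟨i, hi, mem_inter.2 ⟨mem_singleton_self i, hAN k (mem_filter.1 hk).1 hi⟩⟩
  have hcN : ∀ z : Finset ι, z.card ≤ d → (z ∩ N).card ≤ d := fun z hz =>
    (card_le_card inter_subset_left).trans hz
  have key := wires_ge (pred := C.pred) (c := c) he C.pred_lt
    (fun i z h => by
      obtain ⟨h2, h3⟩ := h
      rw [val_inl] at h2 h3
      have h4 : i ∉ X0 ∪ Y := by simpa [ind] using h2
      have h5 : i ∈ X0 ∪ (Y ∪ (z ∩ N)) := by simpa [ind] using h3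
      rw [← union_assoc] at h5
      exact (mem_inter.1 ((mem_union.1 h5).resolve_left h4)).1)
    (fun i z hi h => by
      obtain ⟨h2, h3⟩ := h
      refine ⟨h2, ?_⟩
      rw [val_inl] at h2 h3 ⊢
      have h4 : i ∉ X0 ∪ Y := by simpa [ind] using h2
      have h5 : i ∈ X0 ∪ (Y ∪ ({i} ∩ N)) := by simpa [ind] using h3
      rw [← union_assoc] at h5
      have h6 := (mem_inter.1 ((mem_union.1 h5).resolve_left h4)).2
      simp [ind, hi, h6])
    (fun z => z.card ≤ d) (fun i => by
      show ({i} : Finset ι).card ≤ d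
      rw [card_singleton]; exact h1)
    (fun g z z' hz hz' hw h => by
      obtain ⟨h2, h3⟩ := h
      refine ⟨h2, ?_⟩
      by_cases hm : Monotone (C.op g)
      · rw [val_inr] at h3 ⊢
        have h4 := hm (a := fun j => C.val (ind (X0 ∪ (Y ∪ (z ∩ N)))) (C.src g j))
          (b := fun j => C.val (ind (X0 ∪ (Y ∪ (z' ∩ N)))) (C.src g j)) (fun j => by
            show C.val (ind (X0 ∪ (Y ∪ (z ∩ N)))) (C.src g j) ≤
              C.val (ind (X0 ∪ (Y ∪ (z' ∩ N)))) (C.src g j)
            rcases hb : C.val (ind (X0 ∪ (Y ∪ (z ∩ N)))) (C.src g j) with _ | _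
            · exact Bool.false_le _
            · rcases ha : C.val (ind (X0 ∪ Y)) (C.src g j) with _ | _
              · rw [(hw _ (C.mem_pred.2 ⟨j, rfl⟩) ⟨ha, hb⟩).2]
              · have h5 := hle (z' ∩ N) inter_subset_right (hcN z' hz') (C.src g j)
                rwa [ha] at h5)
        rw [h3] at h4
        exact Bool.eq_true_of_true_le h4
      · exfalso
        have h4 := hq (z ∩ N) inter_subset_right (hcN z hz) g hm
        rw [h2, h3] at h4
        exact absurd h4 (by simp))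
    C.monoGates (fun g i h => by
      unfold monoGates
      refine mem_filter.2 ⟨mem_univ _, ?_⟩
      by_contra hm
      obtain ⟨h2, h3⟩ := h
      have h4 := hq ({i} ∩ N) inter_subset_right (hcN {i} (by rw [card_singleton]; exact h1)) g hm
      rw [h2, h3] at h4
      exact absurd h4 (by simp))
    K' (fun S hS => le_trans (card_le_card (filter_subset_filter _ (filter_subset _ _)))
      (hAA S hS))
    (fun k hk => hA k (mem_filter.1 hk).1) C.out hL (fun _ => d)
    (fun k _ z hz => hz) (fun k hk z hz hzA h => by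
      obtain ⟨-, h3⟩ := h
      rw [hout k hk _ inter_subset_right] at h3
      obtain ⟨j, hj, hjx⟩ := h3
      exact disjoint_left.1 hzA (mem_inter.1 hjx).1 hj)
  have hKc : (K.filter fun k => ¬ Disjoint (A k) Y).card ≤ D * (d * T) := by
    calc (K.filter fun k => ¬ Disjoint (A k) Y).card
        ≤ (Y.biUnion fun i => K.filter fun k => i ∈ A k).card := by
          refine card_le_card fun k hk => ?_
          obtain ⟨i, hi, hiX⟩ := not_disjoint_iff.1 (mem_filter.1 hk).2
          exact mem_biUnion.2 ⟨i, hiX, mem_filter.2 ⟨(mem_filter.1 hk).1, hi⟩⟩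
      _ ≤ Y.card * D := card_biUnion_le_card_mul _ _ _ fun i hi => hD i (hYN hi)
      _ ≤ (d * T) * D := Nat.mul_le_mul_right _ hY
      _ = D * (d * T) := Nat.mul_comm _ _
  have hsplit : ∀ f : κ → ℕ, ∀ b : ℕ, (∀ k, f k ≤ b) →
      ∑ k ∈ K, f k ≤ ∑ k ∈ K', f k + b * (D * (d * T)) := by
    intro f b hb
    rw [← sum_filter_add_sum_filter_not K (fun k => Disjoint (A k) Y) f]
    refine Nat.add_le_add_left ?_ _
    refine (sum_le_card_nsmul _ _ b fun k _ => hb k).trans ?_
    rw [smul_eq_mul, Nat.mul_comm]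
    exact Nat.mul_le_mul_left _ hKc
  constructor
  · refine (hsplit (fun k => min (A k).card (e * (d + 1))) (e * (d + 1))
      fun k => min_le_right _ _).trans ?_
    refine Nat.add_le_add_right (key.1.trans ?_) _
    exact Nat.mul_le_mul_left _ (Nat.mul_le_mul_left _ (sum_le_sum fun g _ => C.card_pred_le g))
  · intro h2
    refine (hsplit (fun k => min ((A k).card - e) (e * d)) (e * d)
      fun k => min_le_right _ _).trans ?_
    exact Nat.add_le_add_right
      (key.2 fun g hg => (C.card_pred_le g).trans (h2 g hg)) _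

end Circuit

end Pool.Agent.Lib_MP_22d2c8_hz
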