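import Pool.Agent.Lib_MP_22d2c8_few.MulFew

/-!
# The digits of a product with a fixed factor

If `y` is a fixed number then for most `x` most of the blocks of `L` digits of `x * y` are not close
to `0` or `2 ^ L`.
-/

namespace Pool.Agent.Lib_MP_22d2c8_hz

open Finset
open Pool.Agent.HazConv (val per)

theorem num_succ {n : ℕ} (x : Fin (n + 1) → Bool) :
    num x = (if x 0 = true then 1 else 0) + 2 * num (fun i => x i.succ) := by
  unfold num
  rw [Fin.sum_univ_succ, mul_sum]
  congr 1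
  refine sum_congr rfl fun i _ => ?_
  split_ifs
  · rw [Fin.val_succ, pow_succ, mul_comm]
  · rfl

theorem num_lt {n : ℕ} (x : Fin n → Bool) : num x < 2 ^ n := by
  induction n with
  | zero => simp [num]
  | succ n ih =>
    have h := ih fun i => x i.succ
    rw [num_succ, pow_succ]
    split_ifs <;> omega

theorem num_injective {n : ℕ} : Function.Injective (num : (Fin n → Bool) → ℕ) := by
  induction n with
  | zero => intro x y _; exact Subsingleton.elim x y
  | succ n ih =>
    intro x y h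
    rw [num_succ, num_succ] at h
    have h0 : x 0 = y 0 := by
      rcases hx : x 0 with _ | _ <;> rcases hy : y 0 with _ | _ <;> simp [hx, hy] at h ⊢ <;> omega
    have h1 : num (fun i => x i.succ) = num (fun i => y i.succ) := by
      rw [h0] at h
      omega
    have h2 := ih h1
    funext i
    refine Fin.cases h0 (fun i => ?_) i
    exact congrFun h2 i

theorem card_block_le (n a L : ℕ) (h : a + L ≤ n) (B : Finset ℕ) :
    ((range (2 ^ n)).filter fun w => w / 2 ^ a % 2 ^ L ∈ B).card ≤ B.card * 2 ^ (n - L) := by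
  have h1 : (range (2 ^ a) ×ˢ (B ×ˢ range (2 ^ (n - a - L)))).card = B.card * 2 ^ (n - L) := by
    rw [card_product, card_product, card_range, card_range]
    have h2 : 2 ^ (n - L) = 2 ^ a * 2 ^ (n - a - L) := by
      rw [← pow_add]
      congr 1
      omega
    rw [h2]
    ring
  rw [← h1]
  refine card_le_card_of_injOn (fun w => (w % 2 ^ a, (w / 2 ^ a % 2 ^ L, w / 2 ^ a / 2 ^ L))) ?_ ?_
  · intro w hw
    obtain ⟨hw1, hw2⟩ := mem_filter.1 (mem_coe.1 hw)
    refine mem_coe.2 (mem_product.2 ⟨mem_range.2 (Nat.mod_lt _ (by positivity)),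
      mem_product.2 ⟨hw2, mem_range.2 ?_⟩⟩)
    simp only
    rw [Nat.div_div_eq_div_mul, ← pow_add, Nat.div_lt_iff_lt_mul (by positivity), ← pow_add]
    have h3 : n - a - L + (a + L) = n := by omega
    rw [h3]
    exact mem_range.1 hw1
  · intro w _ w' _ hww
    simp only [Prod.mk.injEq] at hww
    obtain ⟨h3, h4, h5⟩ := hww
    have h6 : w / 2 ^ a = w' / 2 ^ a := by
      rw [← Nat.div_add_mod (w / 2 ^ a) (2 ^ L), ← Nat.div_add_mod (w' / 2 ^ a) (2 ^ L), h4, h5]
    rw [← Nat.div_add_mod w (2 ^ a), ← Nat.div_add_mod w' (2 ^ a), h3, h6]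

theorem mod_block (n a L w : ℕ) (h : a + L ≤ n) :
    w % 2 ^ n / 2 ^ a % 2 ^ L = w / 2 ^ a % 2 ^ L := by
  rw [← Nat.mod_mul_right_div_self, ← Nat.mod_mul_right_div_self, ← pow_add,
    Nat.mod_mod_of_dvd _ (pow_dvd_pow 2 h)]

theorem card_mul_block_le (n a L y : ℕ) (hy : y % 2 = 1) (h : a + L ≤ n) (B : Finset ℕ) :
    ((range (2 ^ n)).filter fun z => z * y / 2 ^ a % 2 ^ L ∈ B).card ≤ B.card * 2 ^ (n - L) := by
  refine le_trans ?_ (card_block_le n a L h B)
  refine card_le_card_of_injOn (fun z => z * y % 2 ^ n) ?_ ?_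
  · intro z hz
    obtain ⟨-, hz2⟩ := mem_filter.1 (mem_coe.1 hz)
    refine mem_coe.2 (mem_filter.2 ⟨mem_range.2 (Nat.mod_lt _ (by positivity)), ?_⟩)
    simp only
    rw [mod_block n a L _ h]
    exact hz2
  · intro z hz z' hz' hzz
    have h1 := mem_range.1 (mem_filter.1 (mem_coe.1 hz)).1
    have h2 := mem_range.1 (mem_filter.1 (mem_coe.1 hz')).1
    have h3 : z * y ≡ z' * y [MOD 2 ^ n] := hzz
    have h4 : Nat.gcd (2 ^ n) y = 1 := by
      refine Nat.Coprime.pow_left n ?_
      rw [Nat.coprime_two_left]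
      exact Nat.odd_iff.2 hy
    have h5 := Nat.ModEq.cancel_right_of_coprime h4 h3
    exact Nat.ModEq.eq_of_lt_of_lt h5 h1 h2

/-- The values which are close to `0` or to `2 ^ L`. -/
def badSet (L r : ℕ) : Finset ℕ := (range (2 ^ L)).filter fun b => b < 2 * r ∨ 2 ^ L ≤ b + 2 * r

theorem card_badSet (L r : ℕ) : (badSet L r).card ≤ 4 * r := by
  have h : badSet L r ⊆ range (2 * r) ∪ Ico (2 ^ L - 2 * r) (2 ^ L) := by
    intro b hb
    obtain ⟨h1, h2⟩ := mem_filter.1 hb
    rw [mem_range] at h1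
    rw [mem_union, mem_range, mem_Ico]
    omega
  refine (card_le_card h).trans ((card_union_le _ _).trans ?_)
  rw [card_range, Nat.card_Ico]
  omega

/-- The good outputs for the product `P`. -/
def goodOuts (L m r P : ℕ) : Finset ℕ := (Ico m (2 * m)).filter fun k =>
  2 * r ≤ P / 2 ^ (L * (k - 1)) % 2 ^ L ∧ P / 2 ^ (L * (k - 1)) % 2 ^ L + 2 * r < 2 ^ L

theorem card_x_bad {n L m r v y' : ℕ} (hy : y' % 2 = 1) (hn : 2 * L * m ≤ n) {k : ℕ}
    (hk : m ≤ k) (hk2 : k < 2 * m) (hv : v ≤ L * (m - 1)) :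
    (univ.filter fun x : Fin n → Bool =>
      num x * (2 ^ v * y') / 2 ^ (L * (k - 1)) % 2 ^ L ∈ badSet L r).card ≤
        4 * r * 2 ^ (n - L) := by
  have hvk : v ≤ L * (k - 1) := hv.trans (Nat.mul_le_mul_left _ (by omega))
  have hkn : L * (k - 1) - v + L ≤ n := by
    have h1 : L * (k - 1) + L = L * k := by
      obtain ⟨j, rfl⟩ : ∃ j, k = j + 1 := ⟨k - 1, by omega⟩
      simp only [Nat.add_sub_cancel]
      ring
    have h2 : L * k ≤ 2 * L * m := by
      calc L * k ≤ L * (2 * m) := Nat.mul_le_mul_left _ hk2.le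
        _ = 2 * L * m := by ring
    omega
  have hdiv : ∀ z, z * (2 ^ v * y') / 2 ^ (L * (k - 1)) = z * y' / 2 ^ (L * (k - 1) - v) := by
    intro z
    have h1 : 2 ^ (L * (k - 1)) = 2 ^ (L * (k - 1) - v) * 2 ^ v := by
      rw [← pow_add]
      congr 1
      omega
    have h2 : z * (2 ^ v * y') = z * y' * 2 ^ v := by ring
    rw [h1, h2, Nat.mul_div_mul_right _ _ (by positivity)]
  refine le_trans ?_ ((card_mul_block_le n (L * (k - 1) - v) L y' hy hkn (badSet L r)).trans
    (Nat.mul_le_mul_right _ (card_badSet L r)))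
  refine card_le_card_of_injOn num ?_ num_injective.injOn
  intro x hx
  have h1 := (mem_filter.1 (mem_coe.1 hx)).2
  refine mem_coe.2 (mem_filter.2 ⟨mem_range.2 (num_lt x), ?_⟩)
  rw [← hdiv]
  exact h1

theorem most_x_good {n L m r v y' : ℕ} (hm : 0 < m) (hy : y' % 2 = 1) (hn : 2 * L * m ≤ n)
    (hv : v ≤ L * (m - 1)) (hr : 32 * r ≤ 2 ^ L) :
    3 * 2 ^ n ≤ 4 * (univ.filter fun x : Fin n → Bool =>
      m ≤ 2 * (goodOuts L m r (num x * (2 ^ v * y'))).card).card := by
  classical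
  set bad : (Fin n → Bool) → Finset ℕ := fun x => (Ico m (2 * m)).filter fun k =>
    num x * (2 ^ v * y') / 2 ^ (L * (k - 1)) % 2 ^ L ∈ badSet L r with hbad
  have hgb : ∀ x, (goodOuts L m r (num x * (2 ^ v * y'))).card + (bad x).card = m := by
    intro x
    have h1 : bad x = (Ico m (2 * m)).filter fun k =>
        ¬ (2 * r ≤ num x * (2 ^ v * y') / 2 ^ (L * (k - 1)) % 2 ^ L ∧
          num x * (2 ^ v * y') / 2 ^ (L * (k - 1)) % 2 ^ L + 2 * r < 2 ^ L) := by
      refine filter_congr fun k _ => ?_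
      rw [badSet, mem_filter, mem_range]
      have := Nat.mod_lt (num x * (2 ^ v * y') / 2 ^ (L * (k - 1))) (y := 2 ^ L) (by positivity)
      omega
    rw [h1, goodOuts, card_filter_add_card_filter_not, Nat.card_Ico]
    omega
  have hsum : ∑ x : Fin n → Bool, (bad x).card ≤ m * (4 * r * 2 ^ (n - L)) := by
    have h1 : ∑ x : Fin n → Bool, (bad x).card = ∑ k ∈ Ico m (2 * m),
        (univ.filter fun x : Fin n → Bool =>
          num x * (2 ^ v * y') / 2 ^ (L * (k - 1)) % 2 ^ L ∈ badSet L r).card := by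
      simp only [hbad, card_filter]
      exact sum_comm
    rw [h1]
    refine (sum_le_sum fun k hk => card_x_bad (r := r) hy hn (mem_Ico.1 hk).1 (mem_Ico.1 hk).2
      hv).trans ?_
    rw [sum_const, Nat.card_Ico, smul_eq_mul]
    refine Nat.mul_le_mul_right _ (by omega)
  have hL : L ≤ n := by nlinarith
  have h8 : 8 * (4 * r * 2 ^ (n - L)) ≤ 2 ^ n := by
    calc 8 * (4 * r * 2 ^ (n - L)) = 32 * r * 2 ^ (n - L) := by ring
      _ ≤ 2 ^ L * 2 ^ (n - L) := Nat.mul_le_mul_right _ hr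
      _ = 2 ^ n := by
        rw [← pow_add]
        congr 1
        omega
  set G := univ.filter fun x : Fin n → Bool =>
      m ≤ 2 * (goodOuts L m r (num x * (2 ^ v * y'))).card with hG
  set G' := univ.filter fun x : Fin n → Bool =>
      ¬ m ≤ 2 * (goodOuts L m r (num x * (2 ^ v * y'))).card with hG'
  have hGG : G.card + G'.card = 2 ^ n := by
    rw [hG, hG', card_filter_add_card_filter_not, card_univ, Fintype.card_fun, Fintype.card_bool,
      Fintype.card_fin]
  have h9 : G'.card * m ≤ 2 * ∑ x : Fin n → Bool, (bad x).card := by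
    rw [← smul_eq_mul, ← sum_const, mul_sum]
    refine (sum_le_sum fun x hx => ?_).trans
      (sum_le_sum_of_subset_of_nonneg (subset_univ G') fun _ _ _ => Nat.zero_le _)
    have h1 := (mem_filter.1 hx).2
    have h2 := hgb x
    omega
  have h10 : 4 * G'.card ≤ 2 ^ n := by
    have h11 : m * (4 * G'.card) ≤ m * 2 ^ n := by
      calc m * (4 * G'.card) = 4 * (G'.card * m) := by ring
        _ ≤ 4 * (2 * (m * (4 * r * 2 ^ (n - L)))) := by
          refine Nat.mul_le_mul_left _ (h9.trans (Nat.mul_le_mul_left _ hsum))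
        _ = m * (8 * (4 * r * 2 ^ (n - L))) := by ring
        _ ≤ m * 2 ^ n := Nat.mul_le_mul_left _ h8
    exact Nat.le_of_mul_le_mul_left h11 hm
  omega

/-- The second factor is `2 ^ v` times an odd number. -/
theorem val_per {L m : ℕ} [NeZero m] (hL : 1 ≤ L) (T : Finset (ZMod m)) (hT : T.Nonempty) :
    ∃ v y', v ≤ L * (m - 1) ∧ y' % 2 = 1 ∧ val L (per m T) = 2 ^ v * y' := by
  classical
  obtain ⟨t, ht⟩ := hT
  have hne : (per m T).Nonempty := by
    refine ⟨t.val, ?_⟩
    rw [per, mem_filter, mem_range]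
    have := ZMod.val_lt t
    refine ⟨by omega, ?_⟩
    simpa using ht
  set j0 := (per m T).min' hne with hj0
  have hj0le : j0 ≤ m - 1 := by
    have h1 : j0 ≤ t.val := by
      refine min'_le _ _ ?_
      rw [per, mem_filter, mem_range]
      have := ZMod.val_lt t
      refine ⟨by omega, ?_⟩
      simpa using ht
    have := ZMod.val_lt t
    omega
  refine ⟨L * j0, ∑ j ∈ per m T, 2 ^ (L * (j - j0)), Nat.mul_le_mul_left _ hj0le, ?_, ?_⟩
  · rw [← add_sum_erase _ _ (min'_mem _ hne), ← hj0, Nat.sub_self, mul_zero, pow_zero,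
      Nat.add_mod]
    have h1 : (∑ j ∈ (per m T).erase j0, 2 ^ (L * (j - j0))) % 2 = 0 := by
      refine Nat.mod_eq_zero_of_dvd (dvd_sum fun j hj => ?_)
      have h2 : j0 ≤ j := min'_le _ _ (mem_of_mem_erase hj)
      have h3 : j ≠ j0 := ne_of_mem_erase hj
      refine dvd_pow_self 2 ?_
      have : 1 ≤ L * (j - j0) := Nat.mul_pos (by omega) (by omega)
      omega
    rw [h1]
    rfl
  · rw [Pool.Agent.HazConv.val, mul_sum]
    refine sum_congr rfl fun j hj => ?_
    have h2 : j0 ≤ j := min'_le _ _ hj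
    rw [← pow_add, ← mul_add]
    congr 2
    omega

theorem most_good {n L m r : ℕ} [NeZero m] (hL : 1 ≤ L) (hn : 2 * L * m ≤ n)
    (hr : 32 * r ≤ 2 ^ L) (T : Finset (ZMod m)) (hT : T.Nonempty) :
    3 * 2 ^ n ≤ 4 * (univ.filter fun x : Fin n → Bool =>
      m ≤ 2 * (goodOuts L m r (num x * num (ybits n L T))).card).card := by
  obtain ⟨v, y', h1, h2, h3⟩ := val_per hL T hT
  rw [num_ybits hL hn T, h3]
  exact most_x_good (Nat.pos_of_ne_zero (NeZero.ne m)) h2 hn h1 hr

end Pool.Agent.Lib_MP_22d2c8_hz
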