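import Pool.Agent.Lib_MP_22d2c8_hz.Model

/-!
# Further definitions

Hazards, changes along chains, Boolean convolution.
-/

namespace Pool.Agent.Lib_MP_22d2c8_hz

open Finset

namespace Circuit

variable {ι κ : Type}

/-- The ternary values of the vertices for the ternary input `a`. -/
def tval (C : Circuit ι κ) (a : ι → Option Bool) : ι ⊕ Fin C.size → Option Bool :=
  C.eval a fun g => kleene (C.op g)

open Classical in
/-- The gates with a monotone function. -/
noncomputable def monoGates (C : Circuit ι κ) : Finset (Fin C.size) :=
  univ.filter fun g => Monotone (C.op g)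

/-- The number of wires that enter monotone gates. -/
noncomputable def monoWires (C : Circuit ι κ) : ℕ := ∑ g ∈ C.monoGates, C.ar g

open Classical in
/-- Along every increasing sequence of inputs there are at most `T` steps at which the value of some
gate whose function is not monotone changes. -/
def ChangesLE (C : Circuit ι κ) (T : ℕ) : Prop :=
  ∀ (r : ℕ) (y : ℕ → ι → Bool), Monotone y →
    ((range r).filter fun i => ∃ g, ¬ Monotone (C.op g) ∧
      C.val (y i) (Sum.inr g) ≠ C.val (y (i + 1)) (Sum.inr g)).card ≤ T

/-- The vertex `w` feeds a gate whose function is not monotone. -/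
def IsEntry (C : Circuit ι κ) (w : ι ⊕ Fin C.size) : Prop :=
  ∃ g j, ¬ Monotone (C.op g) ∧ C.src g j = w

open Classical in
/-- The set of the entry vertices: the vertices that feed gates whose functions are not monotone. -/
noncomputable def entries [Fintype ι] (C : Circuit ι κ) : Finset (ι ⊕ Fin C.size) :=
  univ.filter C.IsEntry

end Circuit

/-- The output `k` has a hazard at the input `x` with the set `U` of unstable variables: its value
does not depend on the variables in `U` (the others have their values in `x`), but its ternary value
is unstable when the variables in `U` are unstable. -/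
def Circuit.IsHazard {ι κ : Type} [DecidableEq ι] (C : Circuit ι κ) (x : ι → Bool) (k : κ)
    (U : Finset ι) : Prop :=
  (∀ y : ι → Bool, (∀ i, i ∉ U → y i = x i) → C.val y (C.out k) = C.val x (C.out k)) ∧
    C.tval (unst x U) (C.out k) = none

open Classical in
/-- The number of hazards at the input `(x, y)` with `i` unstable bits of the first block: pairs of an
output and a set of `i` inputs of the first block. -/
noncomputable def Circuit.hazards {n : ℕ} (C : Circuit (Fin n ⊕ Fin n) (Fin (2 * n)))
    (x y : Fin n → Bool) (i : ℕ) : ℕ :=
  (univ.filter fun q : Fin (2 * n) × Finset (Fin n) =>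
    q.2.card = i ∧ C.IsHazard (two x y) q.1 (q.2.map Function.Embedding.inl)).card

/-- The circuit computes the Boolean convolution. -/
def Circuit.Conv {n : ℕ} (C : Circuit (Fin n ⊕ Fin n) (Fin (2 * n))) : Prop :=
  ∀ (a b : Fin n → Bool) (k : Fin (2 * n)), C.val (two a b) (C.out k) = true ↔
    ∃ i j : Fin n, (i : ℕ) + j = k ∧ a i = true ∧ b j = true

end Pool.Agent.Lib_MP_22d2c8_hz
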