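import Pool.Agent.Lib_MP_22d2c8_hz.Core
import Pool.Agent.Lib_MP_22d2c8_hz.Defs

/-!
# Evaluation of circuits
-/

namespace Pool.Agent.Lib_MP_22d2c8_hz

open Finset

namespace Circuit

variable {ι κ : Type}

/-- A level function: it does not decrease along wires, and it increases along the wires that enter
gates whose functions are not monotone; the levels of the entry vertices are less than `M`. -/
def IsLevel (C : Circuit ι κ) (M : ℕ) (lev : ι ⊕ Fin C.size → ℕ) : Prop :=
  (∀ g j, lev (C.src g j) ≤ lev (Sum.inr g)) ∧
  (∀ g j, ¬ Monotone (C.op g) → lev (C.src g j) < lev (Sum.inr g)) ∧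
  ∀ w, C.IsEntry w → lev w < M

variable (C : Circuit ι κ)

theorem eval_inl {α : Type} (a : ι → α) (F : (g : Fin C.size) → (Fin (C.ar g) → α) → α) (i : ι) :
    C.eval a F (Sum.inl i) = a i := by
  rw [eval]

theorem eval_inr {α : Type} (a : ι → α) (F : (g : Fin C.size) → (Fin (C.ar g) → α) → α)
    (g : Fin C.size) : C.eval a F (Sum.inr g) = F g fun j => C.eval a F (C.src g j) := by
  rw [eval]

theorem val_inl (x : ι → Bool) (i : ι) : C.val x (Sum.inl i) = x i := C.eval_inl _ _ _

theorem val_inr (x : ι → Bool) (g : Fin C.size) :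
    C.val x (Sum.inr g) = C.op g fun j => C.val x (C.src g j) := C.eval_inr _ _ _

theorem tval_inl (a : ι → Option Bool) (i : ι) : C.tval a (Sum.inl i) = a i := C.eval_inl _ _ _

theorem tval_inr (a : ι → Option Bool) (g : Fin C.size) :
    C.tval a (Sum.inr g) = kleene (C.op g) fun j => C.tval a (C.src g j) := C.eval_inr _ _ _

/-- Induction along the wires. -/
theorem induct {p : ι ⊕ Fin C.size → Prop} (h0 : ∀ i, p (Sum.inl i))
    (h1 : ∀ g, (∀ j, p (C.src g j)) → p (Sum.inr g)) (w : ι ⊕ Fin C.size) : p w := by
  have key : ∀ n : ℕ, ∀ g : Fin C.size, g.1 < n → p (Sum.inr g) := by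
    intro n
    induction n with
    | zero => exact fun g hg => absurd hg (Nat.not_lt_zero _)
    | succ n ih =>
      intro g hg
      refine h1 g fun j => ?_
      rcases h : C.src g j with i | h'
      · exact h0 i
      · refine ih h' ?_
        have h2 : h'.1 < g.1 := C.src_lt g j h' h
        omega
  rcases w with i | g
  · exact h0 i
  · exact key C.size g g.2

open Classical in
/-- The set of predecessors of a gate. -/
noncomputable def pred (g : Fin C.size) : Finset (ι ⊕ Fin C.size) := univ.image (C.src g)

theorem mem_pred {g : Fin C.size} {w : ι ⊕ Fin C.size} : w ∈ C.pred g ↔ ∃ j, C.src g j = w := by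
  classical
  simp [pred]

theorem card_pred_le (g : Fin C.size) : (C.pred g).card ≤ C.ar g := by
  classical
  exact card_image_le.trans (by simp)

theorem pred_lt (g h : Fin C.size) (hh : Sum.inr h ∈ C.pred g) : h < g := by
  obtain ⟨j, hj⟩ := C.mem_pred.1 hh
  exact C.src_lt g j h hj

end Circuit

end Pool.Agent.Lib_MP_22d2c8_hz
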