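import Mathlib

/-! # The purity lemma

`c w z` says that the vertex `w` is switched on by the set `z` of inputs. A gate is a monotone function
of its predecessors. -/

namespace Pool.Agent.Lib_MP_22d2c8_hz

open Finset

open scoped Classical in
/-- The inputs that switch on `w` alone. -/
noncomputable def L {ι : Type} [Fintype ι] {N : ℕ} (c : ι ⊕ Fin N → Finset ι → Prop)
    (w : ι ⊕ Fin N) : Finset ι := univ.filter fun i => c w {i}

section

variable {ι : Type} [Fintype ι] {N : ℕ} (pred : Fin N → Finset (ι ⊕ Fin N))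
  (c : ι ⊕ Fin N → Finset ι → Prop) (e : ℕ) (A : Finset ι)

open scoped Classical in
/-- The pure gates of the set `A`. -/
noncomputable def P : Finset (Fin N) := univ.filter fun g => L c (Sum.inr g) ⊆ A ∧
  e < (L c (Sum.inr g)).card

open scoped Classical in
/-- The pure gates that are reached from `o`. -/
noncomputable def R (o : Fin N) : Finset (Fin N) := (P c e A).filter fun g =>
  Relation.ReflTransGen (fun a b => Sum.inr b ∈ pred a ∧ b ∈ P c e A) o g

open scoped Classical in
/-- The boundary. -/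
noncomputable def B (o : Fin N) : Finset (ι ⊕ Fin N) := ((R pred c e A o).biUnion pred).filter
  fun w => ∀ g ∈ P c e A, w ≠ Sum.inr g

variable {pred c e A}

theorem mem_L {w : ι ⊕ Fin N} {i : ι} : i ∈ L c w ↔ c w {i} := by
  classical
  simp [L]

theorem mem_P {g : Fin N} : g ∈ P c e A ↔ L c (Sum.inr g) ⊆ A ∧ e < (L c (Sum.inr g)).card := by
  classical
  simp [P]

theorem mem_R {o g : Fin N} : g ∈ R pred c e A o ↔ g ∈ P c e A ∧
    Relation.ReflTransGen (fun a b => Sum.inr b ∈ pred a ∧ b ∈ P c e A) o g := by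
  classical
  simp [R]

theorem mem_B {o : Fin N} {w : ι ⊕ Fin N} : w ∈ B pred c e A o ↔
    (∃ g ∈ R pred c e A o, w ∈ pred g) ∧ ∀ g ∈ P c e A, w ≠ Sum.inr g := by
  classical
  simp [B]

theorem self_mem_R {o : Fin N} (ho : o ∈ P c e A) : o ∈ R pred c e A o :=
  mem_R.2 ⟨ho, Relation.ReflTransGen.refl⟩

theorem R_step {o g h : Fin N} (hg : g ∈ R pred c e A o) (hh : Sum.inr h ∈ pred g)
    (hP : h ∈ P c e A) : h ∈ R pred c e A o :=
  mem_R.2 ⟨hP, (mem_R.1 hg).2.tail ⟨hh, hP⟩⟩

/-- The main lemma. -/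
theorem boundary (he : 1 ≤ e) (hlt : ∀ g h, Sum.inr h ∈ pred g → h < g)
    (c0 : ∀ i z, c (Sum.inl i) z → i ∈ z)
    (c1 : ∀ i z, i ∈ z → c (Sum.inl i) {i} → c (Sum.inl i) z)
    (Bl : Finset ι → Prop) (hB1 : ∀ i, Bl {i})
    (cm : ∀ g z z', Bl z → Bl z' → (∀ w ∈ pred g, c w z → c w z') → c (Sum.inr g) z →
      c (Sum.inr g) z')
    (o : Fin N) (ho : L c (Sum.inr o) = A) (hA : e < A.card) (d : ℕ)
    (hBd : ∀ z : Finset ι, z.card ≤ d → Bl z)
    (hd : ∀ z : Finset ι, z.card ≤ d → Disjoint z A → ¬ c (Sum.inr o) z) :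
    min A.card (e * (d + 1)) ≤ e * (B pred c e A o).card := by
  classical
  have hoP : o ∈ P c e A := mem_P.2 ⟨ho.le, ho ▸ hA⟩
  set I := (B pred c e A o).filter fun w => ¬ L c w ⊆ A with hI
  rcases Nat.lt_or_ge d I.card with h | h
  · exact (min_le_right _ _).trans
      (Nat.mul_le_mul_left _ (h.trans_le (card_le_card (filter_subset _ _))))
  · refine (min_le_left _ _).trans ?_
    -- elements outside `A`
    have hex : ∀ w : ι ⊕ Fin N, ∃ u : Option ι, w ∈ I → ∃ i, u = some i ∧ i ∈ L c w ∧ i ∉ A := by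
      intro w
      by_cases hw : w ∈ I
      · obtain ⟨i, hi, hiA⟩ := not_subset.1 (mem_filter.1 hw).2
        exact ⟨some i, fun _ => ⟨i, rfl, hi, hiA⟩⟩
      · exact ⟨none, fun h => absurd h hw⟩
    choose u hu using hex
    set z : Finset ι := I.biUnion fun w => (u w).toFinset with hz
    have hzc : z.card ≤ d := by
      refine (card_biUnion_le.trans (sum_le_card_nsmul _ _ 1 fun w _ => ?_)).trans ?_
      · rw [Option.card_toFinset]
        cases u w <;> simp
      · simpa using h
    have hzA : Disjoint z A := by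
      rw [disjoint_left]
      intro i hi hiA
      obtain ⟨w, hw, hiw⟩ := mem_biUnion.1 hi
      obtain ⟨j, hj, -, hjA⟩ := hu w hw
      rw [hj] at hiw
      simp only [Option.toFinset_some, mem_singleton] at hiw
      exact hjA (hiw ▸ hiA)
    have hBz := hBd z hzc
    -- monotonicity on the ball
    have hmono : ∀ n : ℕ, ∀ w : ι ⊕ Fin N, (∀ g, w = Sum.inr g → g.1 < n) → ∀ i ∈ z,
        c w {i} → c w z := by
      intro n
      induction n with
      | zero =>
        intro w hw i hi hc
        cases w with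
        | inl j =>
          have hj : j = i := mem_singleton.1 (c0 _ _ hc)
          subst hj
          exact c1 _ _ hi hc
        | inr g => exact absurd (hw g rfl) (Nat.not_lt_zero _)
      | succ n ih =>
        intro w hw i hi hc
        cases w with
        | inl j =>
          have hj : j = i := mem_singleton.1 (c0 _ _ hc)
          subst hj
          exact c1 _ _ hi hc
        | inr g =>
          refine cm g {i} z (hB1 i) hBz (fun w' hw' hc' => ih w' ?_ i hi hc') hc
          rintro h rfl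
          have h1 := hlt g h hw'
          have h2 := hw g rfl
          have h3 : h.1 < g.1 := h1
          omega
    have hcover : A ⊆ (B pred c e A o \ I).biUnion fun w => L c w := by
      intro i hi
      by_contra hni
      have hni' : ∀ w ∈ B pred c e A o \ I, ¬ c w {i} := by
        intro w hw hc
        exact hni (mem_biUnion.2 ⟨w, hw, mem_L.2 hc⟩)
      have key : ∀ n : ℕ, ∀ g ∈ R pred c e A o, g.1 < n → c (Sum.inr g) {i} →
          c (Sum.inr g) z := by
        intro n
        induction n with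
        | zero => exact fun g _ hg _ => absurd hg (Nat.not_lt_zero _)
        | succ n ih =>
          intro g hg hgn hc
          refine cm g {i} z (hB1 i) hBz (fun w hw hcw => ?_) hc
          by_cases hwP : ∀ h ∈ P c e A, w ≠ Sum.inr h
          · have hwB : w ∈ B pred c e A o := mem_B.2 ⟨⟨g, hg, hw⟩, hwP⟩
            by_cases hwI : w ∈ I
            · obtain ⟨j, hj, hjL, -⟩ := hu w hwI
              have hjz : j ∈ z := mem_biUnion.2 ⟨w, hwI, by rw [hj]; simp⟩
              refine hmono N w ?_ j hjz (mem_L.1 hjL)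
              rintro h rfl
              exact h.2
            · exact absurd hcw (hni' w (mem_sdiff.2 ⟨hwB, hwI⟩))
          · push Not at hwP
            obtain ⟨h, hh, rfl⟩ := hwP
            refine ih h (R_step hg hw hh) ?_ hcw
            have h1 : h.1 < g.1 := hlt g h hw
            omega
      refine hd z hzc hzA (key N o (self_mem_R hoP) o.2 ?_)
      have h1 : i ∈ L c (Sum.inr o) := by rw [ho]; exact hi
      exact mem_L.1 h1
    calc A.card ≤ ((B pred c e A o \ I).biUnion fun w => L c w).card := card_le_card hcover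
      _ ≤ ∑ w ∈ B pred c e A o \ I, (L c w).card := card_biUnion_le
      _ ≤ ∑ w ∈ B pred c e A o \ I, e := by
          refine sum_le_sum fun w hw => ?_
          rw [mem_sdiff] at hw
          have hwA : L c w ⊆ A := by
            by_contra hcon
            exact hw.2 (mem_filter.2 ⟨hw.1, hcon⟩)
          cases w with
          | inl j =>
            refine le_trans (card_le_one.2 fun a ha b hb => ?_) he
            rw [mem_L] at ha hb
            rw [← mem_singleton.1 (c0 _ _ ha), ← mem_singleton.1 (c0 _ _ hb)]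
          | inr g =>
            by_contra hcon
            push Not at hcon
            exact (mem_B.1 hw.1).2 g (mem_P.2 ⟨hwA, hcon⟩) rfl
      _ = e * (B pred c e A o \ I).card := by rw [sum_const, smul_eq_mul, Nat.mul_comm]
      _ ≤ e * (B pred c e A o).card := Nat.mul_le_mul_left _ (card_le_card sdiff_subset)

theorem B_le (o : Fin N) : (B pred c e A o).card ≤ ∑ g ∈ P c e A, (pred g).card := by
  classical
  refine (card_le_card ?_).trans (card_biUnion_le (s := P c e A) (t := pred))
  intro w hw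
  obtain ⟨⟨g, hg, hw⟩, -⟩ := mem_B.1 hw
  exact mem_biUnion.2 ⟨g, (mem_R.1 hg).1, hw⟩

theorem B_le_two (h2 : ∀ g ∈ P c e A, (pred g).card ≤ 2) {o : Fin N} (ho : o ∈ P c e A) :
    (B pred c e A o).card ≤ (P c e A).card + 1 := by
  classical
  have h1 : (((R pred c e A o).erase o).image (Sum.inr : Fin N → ι ⊕ Fin N)) ∪
      B pred c e A o ⊆ (R pred c e A o).biUnion pred := by
    refine union_subset ?_ (filter_subset _ _)
    intro w hw
    obtain ⟨g, hg, rfl⟩ := mem_image.1 hw
    rw [mem_erase] at hg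
    obtain ⟨hP, hr⟩ := mem_R.1 hg.2
    rcases Relation.ReflTransGen.cases_tail hr with h | ⟨h, hh1, hh2⟩
    · exact absurd h.symm (fun e => hg.1 e.symm)
    · refine mem_biUnion.2 ⟨h, ?_, hh2.1⟩
      rcases Relation.ReflTransGen.cases_tail hh1 with e | ⟨a, -, ha⟩
      · subst e
        exact self_mem_R ho
      · exact mem_R.2 ⟨ha.2, hh1⟩
  have hdisj : Disjoint (((R pred c e A o).erase o).image (Sum.inr : Fin N → ι ⊕ Fin N))
      (B pred c e A o) := by
    rw [disjoint_left]
    intro w hw hwB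
    obtain ⟨g, hg, rfl⟩ := mem_image.1 hw
    exact (mem_B.1 hwB).2 g (mem_R.1 (mem_of_mem_erase hg)).1 rfl
  have h3 := card_le_card h1
  rw [card_union_of_disjoint hdisj, card_image_of_injective _ Sum.inr_injective,
    card_erase_of_mem (self_mem_R ho)] at h3
  have h4 : ((R pred c e A o).biUnion pred).card ≤ (R pred c e A o).card * 2 :=
    card_biUnion_le_card_mul _ _ _ fun g hg => h2 g (mem_R.1 hg).1
  have h5 : (R pred c e A o).card ≤ (P c e A).card := card_le_card (filter_subset _ _)
  have h6 : 1 ≤ (R pred c e A o).card := card_pos.2 ⟨o, self_mem_R ho⟩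
  omega

end

variable {ι κ : Type} [Fintype ι] [DecidableEq ι] {N : ℕ} {pred : Fin N → Finset (ι ⊕ Fin N)}
  {c : ι ⊕ Fin N → Finset ι → Prop} {A : κ → Finset ι} {e m : ℕ}

/-- Every gate is pure for at most `m` of the sets. -/
theorem P_mult (G : Finset (Fin N)) (hG : ∀ g i, c (Sum.inr g) {i} → g ∈ G) (K : Finset κ)
    (hAA : ∀ S : Finset ι, e < S.card → (K.filter fun k => S ⊆ A k).card ≤ m)
    (f : Fin N → ℕ) : ∑ k ∈ K, ∑ g ∈ P c e (A k), f g ≤ m * ∑ g ∈ G, f g := by
  classical
  have hPG : ∀ k, P c e (A k) ⊆ G := by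
    intro k g hg
    have h1 := (mem_P.1 hg).2
    have h2 : (L c (Sum.inr g)).Nonempty := card_pos.1 (by omega)
    obtain ⟨i, hi⟩ := h2
    exact hG g i (mem_L.1 hi)
  calc ∑ k ∈ K, ∑ g ∈ P c e (A k), f g
      = ∑ k ∈ K, ∑ g ∈ G, if g ∈ P c e (A k) then f g else 0 := by
        refine sum_congr rfl fun k _ => ?_
        rw [← sum_filter]
        congr 1
        ext g
        simp only [mem_filter]
        exact ⟨fun h => ⟨hPG k h, h⟩, fun h => h.2⟩
    _ = ∑ g ∈ G, ∑ k ∈ K, if g ∈ P c e (A k) then f g else 0 := sum_comm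
    _ ≤ ∑ g ∈ G, m * f g := by
        refine sum_le_sum fun g _ => ?_
        rw [← sum_filter, sum_const, smul_eq_mul]
        refine Nat.mul_le_mul_right _ ?_
        by_cases hex : ∃ k, g ∈ P c e (A k)
        · obtain ⟨k, hk⟩ := hex
          refine le_trans (card_le_card fun l hl => ?_) (hAA (L c (Sum.inr g)) (mem_P.1 hk).2)
          rw [mem_filter] at hl ⊢
          exact ⟨hl.1, (mem_P.1 hl.2).1⟩
        · push Not at hex
          rw [filter_false_of_mem (fun k _ => hex k)]
          simp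
    _ = m * ∑ g ∈ G, f g := (mul_sum _ _ _).symm

/-- Wires. -/
theorem wires_ge (he : 1 ≤ e) (hlt : ∀ g h, Sum.inr h ∈ pred g → h < g)
    (c0 : ∀ i z, c (Sum.inl i) z → i ∈ z)
    (c1 : ∀ i z, i ∈ z → c (Sum.inl i) {i} → c (Sum.inl i) z)
    (Bl : Finset ι → Prop) (hB1 : ∀ i, Bl {i})
    (cm : ∀ g z z', Bl z → Bl z' → (∀ w ∈ pred g, c w z → c w z') → c (Sum.inr g) z →
      c (Sum.inr g) z')
    (G : Finset (Fin N)) (hG : ∀ g i, c (Sum.inr g) {i} → g ∈ G)
    (K : Finset κ) (hAA : ∀ S : Finset ι, e < S.card → (K.filter fun k => S ⊆ A k).card ≤ m)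
    (hA : ∀ k ∈ K, e < (A k).card) (out : κ → ι ⊕ Fin N) (ho : ∀ k ∈ K, L c (out k) = A k)
    (d : κ → ℕ) (hBd : ∀ k ∈ K, ∀ z : Finset ι, z.card ≤ d k → Bl z)
    (hd : ∀ k ∈ K, ∀ z : Finset ι, z.card ≤ d k → Disjoint z (A k) → ¬ c (out k) z) :
    ∑ k ∈ K, min (A k).card (e * (d k + 1)) ≤ e * (m * ∑ g ∈ G, (pred g).card) ∧
    ((∀ g ∈ G, (pred g).card ≤ 2) →
      ∑ k ∈ K, min ((A k).card - e) (e * d k) ≤ e * (m * G.card)) := by
  have hgate : ∀ k ∈ K, ∃ o, out k = Sum.inr o := by
    intro k hk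
    rcases h : out k with i | o
    · exfalso
      have h1 := ho k hk
      have h2 := hA k hk
      rw [← h1, h] at h2
      have h3 : (L c (Sum.inl i : ι ⊕ Fin N)).card ≤ 1 := by
        refine card_le_one.2 fun a ha b hb => ?_
        rw [mem_L] at ha hb
        rw [← mem_singleton.1 (c0 _ _ ha), ← mem_singleton.1 (c0 _ _ hb)]
      omega
    · exact ⟨o, rfl⟩
  have hb : ∀ k ∈ K, ∃ o, o ∈ P c e (A k) ∧
      min (A k).card (e * (d k + 1)) ≤ e * (B pred c e (A k) o).card := by
    intro k hk
    obtain ⟨o, hoo⟩ := hgate k hk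
    have h1 := ho k hk
    rw [hoo] at h1
    refine ⟨o, mem_P.2 ⟨h1.le, h1 ▸ hA k hk⟩, ?_⟩
    refine boundary he hlt c0 c1 Bl hB1 cm o h1 (hA k hk) (d k) (hBd k hk) ?_
    intro z hz hzA
    rw [← hoo]
    exact hd k hk z hz hzA
  constructor
  · calc _ ≤ ∑ k ∈ K, e * ∑ g ∈ P c e (A k), (pred g).card := by
          refine sum_le_sum fun k hk => ?_
          obtain ⟨o, -, h⟩ := hb k hk
          exact h.trans (Nat.mul_le_mul_left _ (B_le o))
      _ = e * ∑ k ∈ K, ∑ g ∈ P c e (A k), (pred g).card := (mul_sum _ _ _).symm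
      _ ≤ _ := Nat.mul_le_mul_left _ (P_mult G hG K hAA _)
  · intro h2
    have hPG : ∀ k, P c e (A k) ⊆ G := by
      intro k g hg
      have h1 := (mem_P.1 hg).2
      have h2 : (L c (Sum.inr g)).Nonempty := card_pos.1 (by omega)
      obtain ⟨i, hi⟩ := h2
      exact hG g i (mem_L.1 hi)
    calc _ ≤ ∑ k ∈ K, e * ∑ g ∈ P c e (A k), 1 := by
          refine sum_le_sum fun k hk => ?_
          obtain ⟨o, ho, h⟩ := hb k hk
          have h3 := B_le_two (fun g hg => h2 g (hPG k hg)) ho
          have h4 : e * (B pred c e (A k) o).card ≤ e * (P c e (A k)).card + e := by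
            calc e * (B pred c e (A k) o).card ≤ e * ((P c e (A k)).card + 1) :=
                  Nat.mul_le_mul_left _ h3
              _ = _ := by ring
          rw [Nat.mul_add, Nat.mul_one] at h
          rw [sum_const, smul_eq_mul, mul_one]
          omega
      _ = e * ∑ k ∈ K, ∑ g ∈ P c e (A k), 1 := (mul_sum _ _ _).symm
      _ ≤ e * (m * ∑ g ∈ G, 1) := Nat.mul_le_mul_left _ (P_mult G hG K hAA _)
      _ = _ := by rw [sum_const, smul_eq_mul, mul_one]

end Pool.Agent.Lib_MP_22d2c8_hz
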