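import Pool.Agent.Lib_MP_22d2c8_hz.Neg

/-!
# Disjoint copies of a function
-/

namespace Pool.Agent.Lib_MP_22d2c8_hz

open Finset

namespace Circuit

variable {ν β μ : Type}

section

variable (C : Circuit (ν × β) (ν × μ)) (j : ν) (P : Finset (Fin C.size)) (K : (ν × β) ⊕ Fin C.size → Bool)

/-- The vertices that are kept: the inputs of block `j` and the gates in `P`. -/
def Live : (ν × β) ⊕ Fin C.size → Prop
  | Sum.inl i => i.1 = j
  | Sum.inr h => h ∈ P

/-- The vertices of the subcircuit. -/
noncomputable def toV : (w : (ν × β) ⊕ Fin C.size) → C.Live j P w → β ⊕ Fin P.card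
  | Sum.inl i, _ => Sum.inl i.2
  | Sum.inr h, hh => Sum.inr ((P.orderIsoOfFin rfl).symm ⟨h, hh⟩)

/-- The `q`-th gate in `P`. -/
noncomputable def gt (q : Fin P.card) : Fin C.size := (P.orderIsoOfFin rfl q).1

open Classical in
/-- The subcircuit on the gates in `P`; all the other vertices, except for the inputs of block `j`,
are replaced by the constants `K`. -/
noncomputable def sub (o : (k : μ) → C.Live j P (C.out (j, k))) : Circuit β μ where
  size := P.card
  ar := fun q => Fintype.card {a : Fin (C.ar (C.gt P q)) // C.Live j P (C.src (C.gt P q) a)}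
  src := fun q a => C.toV j P (C.src (C.gt P q) ((Fintype.equivFin _).symm a).1)
    ((Fintype.equivFin _).symm a).2
  src_lt := by
    intro q a h hh
    set a' := (Fintype.equivFin {a : Fin (C.ar (C.gt P q)) // C.Live j P (C.src (C.gt P q) a)}).symm a
    obtain ⟨a'', ha''⟩ := a'
    rcases hs : C.src (C.gt P q) a'' with i | g
    · simp only [hs] at hh
      exact absurd hh (by simp [toV])
    · simp only [hs] at hh
      have hg : g ∈ P := by rw [hs] at ha''; exact ha''
      have h1 : (P.orderIsoOfFin rfl).symm ⟨g, hg⟩ = h := by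
        simpa [toV] using hh
      have h2 := C.src_lt _ _ _ hs
      rw [← h1, ← (P.orderIsoOfFin rfl).lt_iff_lt, OrderIso.apply_symm_apply]
      exact h2
  op := fun q z => C.op (C.gt P q) fun a =>
    if hl : C.Live j P (C.src (C.gt P q) a) then z (Fintype.equivFin _ ⟨a, hl⟩)
    else K (C.src (C.gt P q) a)
  out := fun k => C.toV j P (C.out (j, k)) (o k)

open Classical in
/-- The values of the subcircuit, as a function of the vertices of `C`. -/
noncomputable def hv (o : (k : μ) → C.Live j P (C.out (j, k))) (y : β → Bool)
    (w : (ν × β) ⊕ Fin C.size) : Bool :=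
  if hw : C.Live j P w then (C.sub j P K o).val y (C.toV j P w hw) else K w

variable {C j P K}

theorem hv_not {o : (k : μ) → C.Live j P (C.out (j, k))} {y : β → Bool}
    {w : (ν × β) ⊕ Fin C.size} (hw : ¬ C.Live j P w) : C.hv j P K o y w = K w := by
  unfold hv
  rw [dif_neg hw]

theorem hv_inl {o : (k : μ) → C.Live j P (C.out (j, k))} {y : β → Bool}
    {i : ν × β} (hi : i.1 = j) : C.hv j P K o y (Sum.inl i) = y i.2 := by
  have hl : C.Live j P (Sum.inl i) := hi
  unfold hv
  rw [dif_pos hl]
  show (C.sub j P K o).val y (Sum.inl i.2) = y i.2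
  rw [val_inl]

theorem hv_gt {o : (k : μ) → C.Live j P (C.out (j, k))} {y : β → Bool} (q : Fin P.card) :
    C.hv j P K o y (Sum.inr (C.gt P q)) =
      C.op (C.gt P q) fun a => C.hv j P K o y (C.src (C.gt P q) a) := by
  classical
  have hl : C.Live j P (Sum.inr (C.gt P q)) := (P.orderIsoOfFin rfl q).2
  unfold hv
  rw [dif_pos hl]
  have h1 : C.toV j P (Sum.inr (C.gt P q)) hl = Sum.inr q := by
    show Sum.inr ((P.orderIsoOfFin rfl).symm ⟨C.gt P q, _⟩) = Sum.inr q
    congr 1
    exact (P.orderIsoOfFin rfl).symm_apply_apply q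
  rw [h1]
  have h2 := (C.sub j P K o).val_inr y q
  refine h2.trans ?_
  show C.op (C.gt P q) _ = _
  congr 1
  funext a
  by_cases hla : C.Live j P (C.src (C.gt P q) a)
  · rw [dif_pos hla, dif_pos hla]
    have h3 : ∀ (b : {a : Fin (C.ar (C.gt P q)) // C.Live j P (C.src (C.gt P q) a)}),
        (C.sub j P K o).src q (Fintype.equivFin _ b) = C.toV j P (C.src (C.gt P q) b.1) b.2 := by
      intro b
      show C.toV j P (C.src (C.gt P q) ((Fintype.equivFin _).symm (Fintype.equivFin _ b)).1)
        ((Fintype.equivFin _).symm (Fintype.equivFin _ b)).2 = _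
      congr 2
      simp
    exact congrArg ((C.sub j P K o).val y) (h3 ⟨a, hla⟩)
  · rw [dif_neg hla, dif_neg hla]

theorem sub_mono {o : (k : μ) → C.Live j P (C.out (j, k))}
    (hP : ∀ g ∈ P, Monotone (C.op g) ∧ C.ar g ≤ 2) (q : Fin (C.sub j P K o).size) :
    Monotone ((C.sub j P K o).op q) ∧ (C.sub j P K o).ar q ≤ 2 := by
  classical
  have hq : C.gt P q ∈ P := (P.orderIsoOfFin rfl q).2
  constructor
  · intro z z' hz
    show C.op (C.gt P q) _ ≤ C.op (C.gt P q) _
    refine (hP _ hq).1 fun a => ?_
    by_cases hla : C.Live j P (C.src (C.gt P q) a)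
    · rw [dif_pos hla, dif_pos hla]
      exact hz _
    · rw [dif_neg hla, dif_neg hla]
  · refine le_trans ?_ (hP _ hq).2
    show Fintype.card {a : Fin (C.ar (C.gt P q)) // C.Live j P (C.src (C.gt P q) a)} ≤ _
    exact (Fintype.card_subtype_le _).trans (by simp)

end

/-! ### The theorem -/

section

variable [DecidableEq ν] [DecidableEq β] [Fintype ν] [Fintype β]

/-- The inputs of block `j`. -/
def block (β : Type) [Fintype β] (j : ν) : Finset (ν × β) :=
  univ.filter fun i => i.1 = j

/-- The ones of the assignment `y` in block `j`. -/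
def ones (j : ν) (y : β → Bool) : Finset (ν × β) := univ.filter fun i => i.1 = j ∧ y i.2 = true

omit [DecidableEq β] in
theorem mem_block {j : ν} {i : ν × β} : i ∈ block β j ↔ i.1 = j := by simp [block]

omit [DecidableEq β] in
theorem mem_ones {j : ν} {y : β → Bool} {i : ν × β} : i ∈ ones j y ↔ i.1 = j ∧ y i.2 = true := by
  simp [ones]

omit [DecidableEq β] in
theorem card_block (j : ν) : (block β j).card = Fintype.card β := by
  have h : block β j = univ.map ⟨fun b : β => (j, b), fun a b hab => (Prod.mk.inj hab).2⟩ := by
    ext i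
    rw [mem_block, mem_map]
    constructor
    · rintro rfl
      exact ⟨i.2, mem_univ _, rfl⟩
    · rintro ⟨b, -, rfl⟩
      rfl
  rw [h, card_map, card_univ]

omit [DecidableEq β] in
theorem ones_subset (j : ν) (y : β → Bool) : ones j y ⊆ block β j := fun _ hi =>
  mem_block.2 (mem_ones.1 hi).1

/-- `N` disjoint copies of a function. -/
theorem direct_sum (g : (β → Bool) → μ → Bool) (M : ℕ) (h0 : ∀ k, g (fun _ => false) k = false)
    (h1 : ∀ k, g (fun _ => true) k = true)
    (hM : ∀ C' : Circuit β μ, (∀ v, Monotone (C'.op v) ∧ C'.ar v ≤ 2) →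
      (∀ y k, C'.val y (C'.out k) = g y k) → M ≤ C'.size)
    (C : Circuit (ν × β) (ν × μ)) (hC : ∀ x j k, C.val x (C.out (j, k)) = g (fun b => x (j, b)) k)
    (h2 : ∀ v ∈ C.monoGates, C.ar v ≤ 2) (T : ℕ) (hT : C.ChangesLE T) :
    M * Fintype.card ν ≤ C.monoGates.card + M * (2 * Fintype.card β * M * T) := by
  classical
  rcases Nat.eq_zero_or_pos M with hM0 | hMp
  · subst hM0
    simp
  set b := Fintype.card β with hb
  set d := 2 * b * M with hd
  obtain ⟨X, hX, hq⟩ := C.exists_quiet_univ hT d
  have hmon : ∀ z z' : Finset (ν × β), z ⊆ z' → z'.card ≤ d → ∀ w,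
      C.val (ind (X ∪ z)) w ≤ C.val (ind (X ∪ z')) w := by
    intro z z' hzz hz' w
    refine C.val_le_of_quiet (ind_mono (union_subset_union_right hzz)) (fun v hv => ?_) w
    rw [hq z' hz' v hv, hq z ((card_le_card hzz).trans hz') v hv]
  have hbase : ∀ z : Finset (ν × β), z.card ≤ d → ∀ w,
      C.val (ind X) w ≤ C.val (ind (X ∪ z)) w := by
    intro z hz w
    have h := hmon ∅ z (empty_subset _) hz w
    rwa [union_empty] at h
  set c : (ν × β) ⊕ Fin C.size → Finset (ν × β) → Prop := fun w z =>
    C.val (ind X) w = false ∧ C.val (ind (X ∪ z)) w = true with hc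
  set P : ν → Finset (Fin C.size) := fun j => univ.filter fun v =>
    c (Sum.inr v) (block β j) ∧ ∀ z : Finset (ν × β), Disjoint z (block β j) → z.card ≤ b →
      ¬ c (Sum.inr v) z with hP
  have hbd : b ≤ d := by
    rw [hd]
    nlinarith
  have hPm : ∀ j, P j ⊆ C.monoGates := by
    intro j v hv
    have h3 := (mem_filter.1 hv).2.1
    unfold monoGates
    refine mem_filter.2 ⟨mem_univ _, ?_⟩
    by_contra hm
    have h4 := hq (block β j) (by rw [card_block]; exact hbd) v hm
    rw [h3.1, h3.2] at h4
    exact absurd h4 (by simp)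
  have hdisj : ∀ j j' : ν, j ≠ j' → Disjoint (block β j) (block β j') := by
    intro j j' hjj
    rw [disjoint_left]
    intro i hi hi'
    exact hjj ((mem_block.1 hi).symm.trans (mem_block.1 hi'))
  have hPdisj : ∀ j j' : ν, j ≠ j' → Disjoint (P j) (P j') := by
    intro j j' hjj
    rw [disjoint_left]
    intro v hv hv'
    exact (mem_filter.1 hv').2.2 (block β j) (hdisj j j' hjj) (card_block j).le
      (mem_filter.1 hv).2.1
  -- the main claim
  have hmain : ∀ j, Disjoint (block β j) X → M ≤ (P j).card := by
    intro j hj
    by_contra hlt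
    push Not at hlt
    set I : Finset ((ν × β) ⊕ Fin C.size) := ((P j).biUnion C.pred).filter fun w =>
      ∃ z : Finset (ν × β), Disjoint z (block β j) ∧ z.card ≤ b ∧ c w z with hI
    have hIc : I.card ≤ 2 * (M - 1) := by
      calc I.card ≤ ((P j).biUnion C.pred).card := card_le_card (filter_subset _ _)
        _ ≤ (P j).card * 2 := card_biUnion_le_card_mul _ _ _ fun v hv =>
            (C.card_pred_le v).trans (h2 v (hPm j hv))
        _ ≤ _ := by omega
    have hex : ∀ w, ∃ z : Finset (ν × β), w ∈ I → Disjoint z (block β j) ∧ z.card ≤ b ∧ c w z := by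
      intro w
      by_cases hw : w ∈ I
      · obtain ⟨z, hz⟩ := (mem_filter.1 hw).2
        exact ⟨z, fun _ => hz⟩
      · exact ⟨∅, fun h => absurd h hw⟩
    choose zz hzz using hex
    set Z : Finset (ν × β) := I.biUnion zz with hZ
    have hZc : Z.card ≤ 2 * (M - 1) * b := by
      refine (card_biUnion_le_card_mul _ _ b fun w hw => (hzz w hw).2.1).trans ?_
      exact Nat.mul_le_mul_right _ hIc
    have hZj : Disjoint Z (block β j) := by
      rw [hZ, disjoint_biUnion_left]
      exact fun w hw => (hzz w hw).1
    have honesb : ∀ y : β → Bool, (ones j y).card ≤ b := fun y =>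
      (card_le_card (ones_subset j y)).trans (card_block j).le
    have hcard : ∀ y : β → Bool, (Z ∪ ones j y).card ≤ d := by
      intro y
      refine (card_union_le _ _).trans ?_
      have h3 := honesb y
      obtain ⟨m, rfl⟩ : ∃ m, M = m + 1 := ⟨M - 1, by omega⟩
      rw [hd]
      rw [Nat.add_sub_cancel] at hZc
      nlinarith
    -- the outputs
    have hout : ∀ (z : Finset (ν × β)) (y : β → Bool) (k : μ), Disjoint z (block β j) →
        C.val (ind (X ∪ (z ∪ ones j y))) (C.out (j, k)) = g y k := by
      intro z y k hz
      rw [hC]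
      congr 1
      funext i
      unfold ind
      have h3 : (j, i) ∉ X := fun h => disjoint_left.1 hj (mem_block.2 rfl) h
      have h4 : (j, i) ∉ z := fun h => disjoint_left.1 hz h (mem_block.2 rfl)
      by_cases hy : y i = true
      · have h5 : (j, i) ∈ ones j y := mem_ones.2 ⟨rfl, hy⟩
        rw [hy]
        simp [h5]
      · have h5 : (j, i) ∉ ones j y := fun h => hy (mem_ones.1 h).2
        rw [Bool.not_eq_true] at hy
        rw [hy]
        simp [h3, h4, h5]
    have hout0 : ∀ (z : Finset (ν × β)) (k : μ), Disjoint z (block β j) →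
        C.val (ind (X ∪ z)) (C.out (j, k)) = false := by
      intro z k hz
      have h3 := hout z (fun _ => false) k hz
      have h4 : ones j (fun _ : β => false) = ∅ := by
        ext i
        simp [mem_ones]
      rw [h4, union_empty] at h3
      rw [h3]
      exact h0 k
    have hout1 : ∀ k : μ, C.val (ind (X ∪ block β j)) (C.out (j, k)) = true := by
      intro k
      have h3 := hout ∅ (fun _ => true) k (disjoint_empty_left _)
      have h4 : ones j (fun _ : β => true) = block β j := by
        ext i
        simp [mem_ones, mem_block]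
      rw [h4, empty_union] at h3
      rw [h3]
      exact h1 k
    have hco : ∀ k : μ, c (C.out (j, k)) (block β j) := by
      intro k
      refine ⟨?_, hout1 k⟩
      have h3 := hout0 ∅ k (disjoint_empty_left _)
      rwa [union_empty] at h3
    have hlive : ∀ k : μ, C.Live j (P j) (C.out (j, k)) := by
      intro k
      have h3 := hco k
      rcases ho : C.out (j, k) with i | v
      · show i.1 = j
        rw [ho] at h3
        have h4 := h3.2
        have h5 := h3.1
        rw [val_inl] at h4 h5
        have h6 : i ∈ X ∪ block β j := by simpa [ind] using h4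
        have h7 : i ∉ X := by simpa [ind] using h5
        exact mem_block.1 ((mem_union.1 h6).resolve_left h7)
      · show v ∈ P j
        refine mem_filter.2 ⟨mem_univ _, ho ▸ h3, fun z hz hzb hcz => ?_⟩
        have h4 := hcz.2
        rw [← ho, hout0 z k hz] at h4
        exact absurd h4 (by simp)
    -- the constants
    set K : (ν × β) ⊕ Fin C.size → Bool := fun w =>
      if ∃ z : Finset (ν × β), Disjoint z (block β j) ∧ z.card ≤ b ∧ c w z then true
      else C.val (ind X) w with hK
    -- dead or impure predecessors
    have hnl : ∀ (y : β → Bool) (v : Fin C.size), v ∈ P j → ∀ w ∈ C.pred v, ¬ C.Live j (P j) w →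
        C.val (ind (X ∪ ones j y)) w ≤ K w ∧ K w ≤ C.val (ind (X ∪ (Z ∪ ones j y))) w := by
      intro y v hv w hw hnl
      by_cases himp : ∃ z : Finset (ν × β), Disjoint z (block β j) ∧ z.card ≤ b ∧ c w z
      · have hKw : K w = true := by
          rw [hK]
          exact if_pos himp
        rw [hKw]
        refine ⟨Bool.le_true _, ?_⟩
        have hwI : w ∈ I := mem_filter.2 ⟨mem_biUnion.2 ⟨v, hv, hw⟩, himp⟩
        have h3 := (hzz w hwI).2.2.2
        have h4 := hmon (zz w) (Z ∪ ones j y)
          ((subset_biUnion_of_mem zz hwI).trans subset_union_left) (hcard y) w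
        rwa [h3] at h4
      · have hKw : K w = C.val (ind X) w := by
          rw [hK]
          exact if_neg himp
        rw [hKw]
        refine ⟨?_, hbase _ (hcard y) w⟩
        rcases hX0 : C.val (ind X) w with _ | _
        · rcases hy1 : C.val (ind (X ∪ ones j y)) w with _ | _
          · exact le_refl _
          · exfalso
            -- `w` is switched on by the block
            have h3 : C.val (ind (X ∪ block β j)) w = true := by
              have h4 := hmon (ones j y) (block β j) (ones_subset j y)
                (by rw [card_block]; exact hbd) w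
              rw [hy1] at h4
              exact Bool.eq_true_of_true_le h4
            rcases w with i | v'
            · rw [val_inl] at h3 hX0
              have h6 : i ∈ X ∪ block β j := by simpa [ind] using h3
              have h7 : i ∉ X := by simpa [ind] using hX0
              exact hnl (mem_block.1 ((mem_union.1 h6).resolve_left h7))
            · refine hnl (mem_filter.2 ⟨mem_univ _, ⟨hX0, h3⟩, fun z hz hzb hcz => ?_⟩)
              exact himp ⟨z, hz, hzb, hcz⟩
        · exact Bool.le_true _
    -- the sandwich
    have hsand : ∀ (y : β → Bool) (w : (ν × β) ⊕ Fin C.size), C.Live j (P j) w →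
        C.val (ind (X ∪ ones j y)) w ≤ C.hv j (P j) K hlive y w ∧
          C.hv j (P j) K hlive y w ≤ C.val (ind (X ∪ (Z ∪ ones j y))) w := by
      intro y w
      refine C.induct (p := fun w => C.Live j (P j) w →
        C.val (ind (X ∪ ones j y)) w ≤ C.hv j (P j) K hlive y w ∧
          C.hv j (P j) K hlive y w ≤ C.val (ind (X ∪ (Z ∪ ones j y))) w) ?_ ?_ w
      · intro i hi
        have hi' : i.1 = j := hi
        rw [hv_inl hi', val_inl, val_inl]
        have h3 : i ∉ X := fun h => disjoint_left.1 hj (mem_block.2 hi') h
        have h4 : i ∉ Z := fun h => disjoint_left.1 hZj h (mem_block.2 hi')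
        by_cases hy : y i.2 = true
        · have h5 : i ∈ ones j y := mem_ones.2 ⟨hi', hy⟩
          rw [hy]
          simp [ind, h5]
        · have h5 : i ∉ ones j y := fun h => hy (mem_ones.1 h).2
          rw [Bool.not_eq_true] at hy
          rw [hy]
          simp [ind, h3, h4, h5]
      · intro v hv hlv
        have hvP : v ∈ P j := hlv
        obtain ⟨q, rfl⟩ : ∃ q, C.gt (P j) q = v :=
          ⟨((P j).orderIsoOfFin rfl).symm ⟨v, hvP⟩, by
            unfold gt
            rw [OrderIso.apply_symm_apply]⟩
        have hm : Monotone (C.op (C.gt (P j) q)) := (mem_filter.1 (hPm j hvP)).2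
        rw [hv_gt, val_inr, val_inr]
        constructor
        · refine hm fun a => ?_
          by_cases hla : C.Live j (P j) (C.src (C.gt (P j) q) a)
          · exact (hv a hla).1
          · show _ ≤ C.hv j (P j) K hlive y _
            rw [hv_not hla]
            exact (hnl y _ hvP _ (C.mem_pred.2 ⟨a, rfl⟩) hla).1
        · refine hm fun a => ?_
          by_cases hla : C.Live j (P j) (C.src (C.gt (P j) q) a)
          · exact (hv a hla).2
          · show C.hv j (P j) K hlive y _ ≤ _
            rw [hv_not hla]
            exact (hnl y _ hvP _ (C.mem_pred.2 ⟨a, rfl⟩) hla).2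
    have hfin := hM (C.sub j (P j) K hlive)
      (sub_mono fun v hv => ⟨(mem_filter.1 (hPm j hv)).2, h2 v (hPm j hv)⟩) (fun y k => by
        have h3 := hsand y (C.out (j, k)) (hlive k)
        have h4 : C.hv j (P j) K hlive y (C.out (j, k)) =
            (C.sub j (P j) K hlive).val y ((C.sub j (P j) K hlive).out k) := by
          unfold hv
          rw [dif_pos (hlive k)]
          rfl
        have h5 := hout ∅ y k (disjoint_empty_left _)
        rw [empty_union] at h5
        rw [h5, hout Z y k hZj, h4] at h3
        exact le_antisymm h3.2 h3.1)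
    exact absurd hfin (not_le.2 hlt)
  -- the sum
  have hsum : M * (univ.filter fun j => Disjoint (block β j) X).card ≤ C.monoGates.card := by
    calc M * (univ.filter fun j => Disjoint (block β j) X).card
        = ∑ j ∈ univ.filter (fun j => Disjoint (block β j) X), M := by
          rw [sum_const, smul_eq_mul, Nat.mul_comm]
      _ ≤ ∑ j ∈ univ.filter (fun j => Disjoint (block β j) X), (P j).card :=
          sum_le_sum fun j hj => hmain j (mem_filter.1 hj).2
      _ = ((univ.filter fun j => Disjoint (block β j) X).biUnion P).card :=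
          (card_biUnion fun j _ j' _ h => hPdisj j j' h).symm
      _ ≤ _ := card_le_card (biUnion_subset.2 fun j _ => hPm j)
  have hbad : (univ.filter fun j => ¬ Disjoint (block β j) X).card ≤ d * T := by
    calc (univ.filter fun j => ¬ Disjoint (block β j) X).card
        ≤ (X.image Prod.fst).card := by
          refine card_le_card fun j hj => ?_
          obtain ⟨i, hi, hiX⟩ := not_disjoint_iff.1 (mem_filter.1 hj).2
          exact mem_image.2 ⟨i, hiX, mem_block.1 hi⟩
      _ ≤ X.card := card_image_le
      _ ≤ d * T := hX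
  have htot : (univ.filter fun j : ν => Disjoint (block β j) X).card +
      (univ.filter fun j : ν => ¬ Disjoint (block β j) X).card = Fintype.card ν := by
    rw [card_filter_add_card_filter_not, card_univ]
  rw [← htot, Nat.mul_add]
  exact Nat.add_le_add hsum (Nat.mul_le_mul_left _ hbad)

end

end Circuit

end Pool.Agent.Lib_MP_22d2c8_hz
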