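import Pool.Agent.Lib_MP_22d2c8_hz.Basic

/-!
# Hazards
-/

namespace Pool.Agent.Lib_MP_22d2c8_hz

open Finset

/-- The output `k` has no hazard at the input `x` with at most `d` unstable variables. -/
def Circuit.NoHazard {ι κ : Type} [DecidableEq ι] (C : Circuit ι κ) (x : ι → Bool) (d : ℕ) (k : κ) :
    Prop :=
  ∀ U : Finset ι, U.card ≤ d → ¬ C.IsHazard x k U

theorem kleene_eq {m : ℕ} (f : (Fin m → Bool) → Bool) (a : Fin m → Option Bool)
    (y : Fin m → Bool) (hy : ∀ j, a j = none ∨ a j = some (y j)) :
    kleene f a = none ∨ kleene f a = some (f y) := by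
  unfold kleene
  split_ifs with h1 h2
  · exact Or.inr (by rw [h1 y hy])
  · exact Or.inr (by rw [h2 y hy])
  · exact Or.inl rfl

theorem kleene_mono {m : ℕ} (f : (Fin m → Bool) → Bool) (a a' : Fin m → Option Bool)
    (h : ∀ j, a' j = none ∨ a' j = a j) (hn : kleene f a = none) : kleene f a' = none := by
  unfold kleene at hn ⊢
  have hc : ∀ y : Fin m → Bool, (∀ j, a j = none ∨ a j = some (y j)) →
      ∀ j, a' j = none ∨ a' j = some (y j) := by
    intro y hy j
    rcases h j with h1 | h1
    · exact Or.inl h1
    · rw [h1]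
      exact hy j
  split_ifs at hn with h1 h2
  rw [if_neg (fun h3 => h1 fun y hy => h3 y (hc y hy)),
    if_neg (fun h3 => h2 fun y hy => h3 y (hc y hy))]

namespace Circuit

variable {ι κ : Type} (C : Circuit ι κ)

/-- A stable value is the value at every input that is compatible with the ternary input. -/
theorem tval_sound (a : ι → Option Bool) (y : ι → Bool) (hy : ∀ i, a i = none ∨ a i = some (y i))
    (w : ι ⊕ Fin C.size) : C.tval a w = none ∨ C.tval a w = some (C.val y w) := by
  refine C.induct (p := fun w => C.tval a w = none ∨ C.tval a w = some (C.val y w)) ?_ ?_ w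
  · intro i
    rw [tval_inl, val_inl]
    exact hy i
  · intro g hg
    rw [tval_inr, val_inr]
    exact kleene_eq _ _ _ hg

variable [Fintype ι] [DecidableEq ι]

/-- Outputs with few hazards; only variables in `N` are made unstable. -/
theorem hazard_bound (x : ι → Bool) (N : Finset ι) (K : Finset κ) (A : κ → Finset ι) (d : κ → ℕ)
    {e m : ℕ} (he : 1 ≤ e) (hA : ∀ k ∈ K, e < (A k ∩ N).card)
    (hAA : ∀ S : Finset ι, e < S.card → (K.filter fun k => S ⊆ A k).card ≤ m)
    (hs : ∀ k ∈ K, ∀ i ∈ A k, C.val (flipAt x i) (C.out k) ≠ C.val x (C.out k))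
    (h1 : ∀ k ∈ K, 1 ≤ d k)
    (hd : ∀ k ∈ K, ∀ U ⊆ N, U.card ≤ d k → Disjoint U (A k) →
      C.tval (unst x U) (C.out k) ≠ none) :
    ∑ k ∈ K, min (A k ∩ N).card (e * (d k + 1)) ≤ e * (m * C.wires) ∧
      ((∀ g, C.ar g ≤ 2) →
        ∑ k ∈ K, min ((A k ∩ N).card - e) (e * d k) ≤ e * (m * C.size)) := by
  classical
  have hx : ∀ U : Finset ι, ∀ i, unst x U i = none ∨ unst x U i = some (x i) := by
    intro U i
    unfold unst
    split_ifs
    · exact Or.inl rfl
    · exact Or.inr rfl
  have hL : ∀ k ∈ K, L (fun w z => C.tval (unst x (z ∩ N)) w = none) (C.out k) = A k ∩ N := by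
    intro k hk
    ext i
    rw [mem_L, mem_inter]
    constructor
    · intro h
      by_cases hiN : i ∈ N
      · refine ⟨?_, hiN⟩
        by_contra hi
        rw [singleton_inter_of_mem hiN] at h
        refine hd k hk {i} (singleton_subset_iff.2 hiN) (by rw [card_singleton]; exact h1 k hk) ?_ h
        rwa [disjoint_singleton_left]
      · exfalso
        rw [singleton_inter_of_notMem hiN] at h
        exact hd k hk ∅ (empty_subset _) (by simp) (disjoint_empty_left _) h
    · rintro ⟨hi, hiN⟩
      show C.tval (unst x ({i} ∩ N)) (C.out k) = none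
      rw [singleton_inter_of_mem hiN]
      have h2 := C.tval_sound (unst x {i}) x (hx _) (C.out k)
      have h3 := C.tval_sound (unst x {i}) (flipAt x i) (fun j => by
        unfold unst flipAt
        by_cases hj : j = i
        · subst hj
          simp
        · simp [hj]) (C.out k)
      rcases h2 with h2 | h2
      · exact h2
      · rcases h3 with h3 | h3
        · exact h3
        · exfalso
          rw [h2] at h3
          exact hs k hk i hi (Option.some_injective _ h3).symm
  have key := wires_ge (pred := C.pred) (c := fun w z => C.tval (unst x (z ∩ N)) w = none)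
    (A := fun k => A k ∩ N) he C.pred_lt
    (fun i z h => by
      by_contra hi
      have hi' : i ∉ z ∩ N := fun h' => hi (mem_inter.1 h').1
      rw [tval_inl, unst, if_neg hi'] at h
      exact absurd h (by simp))
    (fun i z hi h => by
      have hiN : i ∈ N := by
        by_contra hiN
        rw [singleton_inter_of_notMem hiN, tval_inl, unst, if_neg (by simp)] at h
        exact absurd h (by simp)
      show C.tval (unst x (z ∩ N)) (Sum.inl i) = none
      rw [tval_inl, unst, if_pos (mem_inter.2 ⟨hi, hiN⟩)])
    (fun _ => True) (fun _ => trivial)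
    (fun g z z' _ _ hw h => by
      show C.tval (unst x (z' ∩ N)) (Sum.inr g) = none
      have h' : C.tval (unst x (z ∩ N)) (Sum.inr g) = none := h
      rw [tval_inr] at h' ⊢
      refine kleene_mono _ _ _ (fun j => ?_) h'
      have h2 := C.tval_sound (unst x (z' ∩ N)) x (hx _) (C.src g j)
      rcases h2 with h2 | h2
      · exact Or.inl h2
      · have h3 := C.tval_sound (unst x (z ∩ N)) x (hx _) (C.src g j)
        rcases h3 with h3 | h3
        · exact Or.inl (hw _ (C.mem_pred.2 ⟨j, rfl⟩) h3)
        · right
          show C.tval (unst x (z' ∩ N)) (C.src g j) = C.tval (unst x (z ∩ N)) (C.src g j)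
          rw [h2, h3])
    univ (fun _ _ _ => mem_univ _) K (fun S hS => le_trans (card_le_card fun k hk => by
      rw [mem_filter] at hk ⊢
      exact ⟨hk.1, hk.2.trans inter_subset_left⟩) (hAA S hS))
    hA C.out hL d (fun _ _ _ _ => trivial) (fun k hk z hz hzA => by
      refine hd k hk (z ∩ N) inter_subset_right ((card_le_card inter_subset_left).trans hz) ?_
      rw [disjoint_left] at hzA ⊢
      intro i hi hiA
      rw [mem_inter] at hi
      exact hzA hi.1 (mem_inter.2 ⟨hiA, hi.2⟩))
  refine ⟨key.1.trans (Nat.mul_le_mul_left _ (Nat.mul_le_mul_left _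
    (sum_le_sum fun g _ => C.card_pred_le g))), fun h2 => ?_⟩
  have h3 := key.2 fun g _ => (C.card_pred_le g).trans (h2 g)
  rwa [card_univ, Fintype.card_fin] at h3

end Circuit

end Pool.Agent.Lib_MP_22d2c8_hz
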