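import Pool.Agent.Lib_MP_22d2c8_hz.Haz
import Pool.Agent.Lib_MP_22d2c8_hz.Neg
import Pool.Agent.Lib_MP_22d2c8_hz.Chain

/-!
# Lines of slope less than `s`
-/

namespace Pool.Agent.Lib_MP_22d2c8_hz

open Finset

/-- The set `{(j, b - a j) : j < s}` for `k = (a, b)`, `a < s`, `b` modulo `p`. -/
def line (p s : ℕ) [NeZero p] (k : Fin s × ZMod p) : Finset (Fin s × ZMod p) :=
  univ.filter fun i => i.2 = k.2 - ((k.1 : ℕ) : ZMod p) * ((i.1 : ℕ) : ZMod p)

variable {p s : ℕ}

theorem mem_line [NeZero p] {k i : Fin s × ZMod p} :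
    i ∈ line p s k ↔ i.2 = k.2 - ((k.1 : ℕ) : ZMod p) * ((i.1 : ℕ) : ZMod p) := by
  simp [line]

theorem card_line [NeZero p] (k : Fin s × ZMod p) : (line p s k).card = s := by
  have h : line p s k = univ.image fun j : Fin s =>
      (j, k.2 - ((k.1 : ℕ) : ZMod p) * ((j : ℕ) : ZMod p)) := by
    ext i
    rw [mem_line, mem_image]
    constructor
    · intro h
      exact ⟨i.1, mem_univ _, by rw [← h]⟩
    · rintro ⟨j, -, rfl⟩
      rfl
  rw [h, card_image_of_injective _ (fun a b hab => (Prod.mk.inj hab).1), card_univ,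
    Fintype.card_fin]

theorem card_lines_through [NeZero p] (i : Fin s × ZMod p) :
    (univ.filter fun k => i ∈ line p s k).card = s := by
  have h : (univ.filter fun k => i ∈ line p s k) = univ.image fun a : Fin s =>
      (a, i.2 + ((a : ℕ) : ZMod p) * ((i.1 : ℕ) : ZMod p)) := by
    ext k
    rw [mem_filter, mem_line, mem_image]
    constructor
    · rintro ⟨-, h⟩
      refine ⟨k.1, mem_univ _, ?_⟩
      rw [h, sub_add_cancel]
    · rintro ⟨a, -, rfl⟩
      exact ⟨mem_univ _, by simp⟩
  rw [h, card_image_of_injective _ (fun a b hab => (Prod.mk.inj hab).1), card_univ,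
    Fintype.card_fin]

theorem cast_inj (hsp : s ≤ p) {a b : Fin s} (h : ((a : ℕ) : ZMod p) = ((b : ℕ) : ZMod p)) :
    a = b := by
  have h1 := (ZMod.natCast_eq_natCast_iff' (a : ℕ) (b : ℕ) p).1 h
  rw [Nat.mod_eq_of_lt (a.2.trans_le hsp), Nat.mod_eq_of_lt (b.2.trans_le hsp)] at h1
  exact Fin.ext h1

theorem inter_line [hp : Fact p.Prime] (hsp : s ≤ p) {k l : Fin s × ZMod p} (hkl : k ≠ l) :
    (line p s k ∩ line p s l).card ≤ 1 := by
  refine card_le_one.2 fun i hi j hj => ?_
  rw [mem_inter, mem_line, mem_line] at hi hj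
  have h1 : (((k.1 : ℕ) : ZMod p) - ((l.1 : ℕ) : ZMod p)) *
      (((i.1 : ℕ) : ZMod p) - ((j.1 : ℕ) : ZMod p)) = 0 := by
    linear_combination hj.2 - hj.1 - (hi.2 - hi.1)
  rcases mul_eq_zero.1 h1 with h2 | h2
  · exfalso
    have h3 : k.1 = l.1 := cast_inj hsp (sub_eq_zero.1 h2)
    apply hkl
    refine Prod.ext h3 ?_
    have h4 := hi.1.symm.trans hi.2
    rw [h3] at h4
    exact sub_left_injective h4
  · have h3 : i.1 = j.1 := cast_inj hsp (sub_eq_zero.1 h2)
    refine Prod.ext h3 ?_
    rw [hi.1, hj.1, h3]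

theorem mult_line [hp : Fact p.Prime] (hsp : s ≤ p) (K : Finset (Fin s × ZMod p))
    (S : Finset (Fin s × ZMod p)) (hS : 1 < S.card) :
    (K.filter fun k => S ⊆ line p s k).card ≤ 1 := by
  refine card_le_one.2 fun k hk l hl => ?_
  rw [mem_filter] at hk hl
  by_contra hkl
  have h1 := card_le_card (subset_inter hk.2 hl.2)
  have h2 := inter_line hsp hkl
  omega

namespace Circuit

variable [hp : Fact p.Prime]

/-- Sums modulo 2 over the lines. -/
theorem lines_hazard (hsp : s ≤ p) {d : ℕ} (h1 : 1 ≤ d) (hds : d < s)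
    (C : Circuit (Fin s × ZMod p) (Fin s × ZMod p))
    (hC : ∀ x k, C.val x (C.out k) = true ↔
      Odd ((line p s k).filter fun i => x i = true).card)
    (x : Fin s × ZMod p → Bool) (K : Finset (Fin s × ZMod p)) (hx : ∀ k ∈ K, C.NoHazard x d k) :
    (d + 1) * K.card ≤ C.wires ∧ ((∀ g, C.ar g ≤ 2) → d * K.card ≤ C.size) := by
  have h := C.hazard_bound x univ K (line p s) (fun _ => d) (le_refl 1)
    (fun k _ => by rw [inter_univ, card_line]; omega)
    (fun S hS => mult_line hsp K S hS) (fun k _ i hi => ?_) (fun _ _ => h1)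
    (fun k hk U _ hU hUk => ?_)
  · simp only [inter_univ, one_mul] at h
    have e1 : ∀ k, min (line p s k).card (d + 1) = d + 1 := fun k => by rw [card_line]; omega
    have e2 : ∀ k, min ((line p s k).card - 1) d = d := fun k => by rw [card_line]; omega
    simp only [e1, e2, sum_const, smul_eq_mul] at h
    refine ⟨by rw [Nat.mul_comm]; exact h.1, fun h2 => by rw [Nat.mul_comm]; exact h.2 h2⟩
  · intro hcon
    have h2 := hC (flipAt x i) k
    rw [hcon, hC x k] at h2
    -- the numbers of ones differ by one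
    have h3 : ∀ b : Bool, (line p s k).filter (fun j => Function.update x i b j = true) =
        if b then insert i (((line p s k).erase i).filter fun j => x j = true)
        else ((line p s k).erase i).filter fun j => x j = true := by
      intro b
      ext j
      by_cases hj : j = i
      · subst hj
        cases b <;> simp [hi]
      · cases b <;> simp [hj]
    have h4 := h3 (x i)
    have h5 := h3 (!x i)
    rw [Function.update_eq_self] at h4
    unfold flipAt at h2
    rw [h4, h5] at h2
    have h6 : i ∉ ((line p s k).erase i).filter fun j => x j = true := by simp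
    generalize x i = b at h2
    cases b
    · simp only [Bool.not_false, if_true, Bool.false_eq_true, if_false] at h2
      rw [card_insert_of_notMem h6, Nat.odd_add_one] at h2
      tauto
    · simp only [Bool.not_true, if_true, Bool.false_eq_true, if_false] at h2
      rw [card_insert_of_notMem h6, Nat.odd_add_one] at h2
      tauto
  · refine fun hn => hx k hk U hU ⟨fun y hy => ?_, hn⟩
    rw [Bool.eq_iff_iff, hC, hC]
    have h7 : (line p s k).filter (fun i => y i = true) =
        (line p s k).filter (fun i => x i = true) := by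
      refine filter_congr fun i hi => ?_
      rw [hy i fun hiU => disjoint_left.1 hUk hiU hi]
    rw [h7]

/-- Disjunctions over the lines. -/
theorem lines_changes (hsp : s ≤ p) {d : ℕ} (h1 : 1 ≤ d) (hds : d < s) (T : ℕ)
    (C : Circuit (Fin s × ZMod p) (Fin s × ZMod p))
    (hC : ∀ x k, C.val x (C.out k) = true ↔ ∃ i ∈ line p s k, x i = true)
    (hT : C.ChangesLE T) :
    (d + 1) * s * p ≤ C.monoWires + (d + 1) * s * (d * T) ∧
      ((∀ g ∈ C.monoGates, C.ar g ≤ 2) →
        d * s * p ≤ C.monoGates.card + d * s * (d * T)) := by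
  have hcard : Fintype.card (Fin s × ZMod p) = s * p := by
    rw [Fintype.card_prod, Fintype.card_fin, ZMod.card]
  have h := C.changes_bound ∅ univ univ (line p s) d s T (le_refl 1)
    (fun k _ => by rw [card_line]; omega) (fun k _ => subset_univ _)
    (fun S hS => mult_line hsp univ S hS) (fun i _ => (card_lines_through i).le) h1
    (fun z _ k _ => by
      rw [hC]
      refine exists_congr fun i => and_congr_right fun _ => ?_
      simp [ind]) hT
  simp only [one_mul] at h
  have e1 : ∀ k, min (line p s k).card (d + 1) = d + 1 := fun k => by rw [card_line]; omega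
  have e2 : ∀ k, min ((line p s k).card - 1) d = d := fun k => by rw [card_line]; omega
  simp only [e1, e2, sum_const, card_univ, smul_eq_mul, hcard] at h
  refine ⟨?_, fun h2 => ?_⟩
  · calc (d + 1) * s * p = s * p * (d + 1) := by ring
      _ ≤ _ := h.1
      _ = _ := by ring
  · calc d * s * p = s * p * d := by ring
      _ ≤ _ := h.2 h2
      _ = _ := by ring

end Circuit

end Pool.Agent.Lib_MP_22d2c8_hz
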