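import Mathlib

/-!
# Definitions

Circuits with arbitrary gates, ternary evaluation with ideal gates, hazards, cancelling gates,
products of integers and of polynomials.
-/

namespace Pool.Agent.Lib_MP_22d2c8_hz

open Finset

/-- A circuit with the set `ι` of inputs and the set `κ` of outputs. The gates are numbered; the gate
`g` reads the vertices `src g 0, ..., src g (ar g - 1)`, which are inputs or gates with smaller
numbers, and applies an arbitrary Boolean function of any number of arguments. Every output is a
vertex (an input or a gate). -/
structure Circuit (ι κ : Type) where
  /-- the number of gates -/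
  size : ℕ
  /-- the fan-in of the gates -/
  ar : Fin size → ℕ
  /-- the sources of the wires -/
  src : (g : Fin size) → Fin (ar g) → ι ⊕ Fin size
  /-- the gates only read gates with smaller numbers -/
  src_lt : ∀ g j h, src g j = Sum.inr h → h < g
  /-- the functions of the gates -/
  op : (g : Fin size) → (Fin (ar g) → Bool) → Bool
  /-- the outputs -/
  out : κ → ι ⊕ Fin size

/-- The ternary extension (Kleene) of a Boolean function. `some b` is the stable value `b` and `none`
is the unstable value. The result is `some b` if `f` has the value `b` for all choices of the unstable
arguments, and it is `none` if there is no such `b`. -/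
def kleene {m : ℕ} (f : (Fin m → Bool) → Bool) (a : Fin m → Option Bool) : Option Bool :=
  if ∀ y : Fin m → Bool, (∀ j, a j = none ∨ a j = some (y j)) → f y = true then some true
  else if ∀ y : Fin m → Bool, (∀ j, a j = none ∨ a j = some (y j)) → f y = false then some false
  else none

namespace Circuit

variable {ι κ : Type}

/-- The evaluation of a circuit, with values in any type `α`; `F g` is the function of gate `g`. -/
def eval {α : Type} (C : Circuit ι κ) (a : ι → α)
    (F : (g : Fin C.size) → (Fin (C.ar g) → α) → α) : ι ⊕ Fin C.size → α
  | Sum.inl i => a i
  | Sum.inr g => F g fun j => C.eval a F (C.src g j)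
termination_by w => Sum.elim (fun _ => 0) (fun g => g.1 + 1) w
decreasing_by
  rcases h : C.src g j with i | h'
  · simp
  · have h1 := C.src_lt g j h' h
    simpa using h1

/-- The values of the vertices for the input `x`. -/
def val (C : Circuit ι κ) (x : ι → Bool) : ι ⊕ Fin C.size → Bool := C.eval x C.op

open Classical in
/-- The exact ternary value of the vertex `w` at the input `x` when the variables in `U` are
unstable: it is `some b` if `w` has the value `b` for all inputs that agree with `x` outside `U`, and
`none` if `w` takes both values on these inputs. -/
noncomputable def exactVal (C : Circuit ι κ) (x : ι → Bool) (U : Finset ι)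
    (w : ι ⊕ Fin C.size) : Option Bool :=
  if ∀ y : ι → Bool, (∀ i, i ∉ U → y i = x i) → C.val y w = C.val x w then some (C.val x w)
  else none

/-- The gate `g` cancels at the input `x` with the set `U`: it is constant on the inputs that agree
with `x` outside `U`, but this does not follow from the exact ternary values of its arguments (it
would not be constant if its arguments that are not constant were independent variables). -/
def Cancels (C : Circuit ι κ) (x : ι → Bool) (U : Finset ι) (g : Fin C.size) : Prop :=
  C.exactVal x U (Sum.inr g) ≠ none ∧ kleene (C.op g) (fun j => C.exactVal x U (C.src g j)) = none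

/-- The number of wires that enter gates. -/
def wires (C : Circuit ι κ) : ℕ := ∑ g, C.ar g

end Circuit

/-- The input `x` in which the variables of the set `U` have been made unstable. -/
def unst {ι : Type} [DecidableEq ι] (x : ι → Bool) (U : Finset ι) : ι → Option Bool :=
  fun i => if i ∈ U then none else some (x i)

/-- The ternary evaluation at the input `x` when the variables in `U` are unstable and the gates in
`E` are ideal, that is, they have their exact ternary values. -/
noncomputable def Circuit.tvalE {ι κ : Type} [DecidableEq ι] (C : Circuit ι κ)
    (E : Finset (Fin C.size)) (x : ι → Bool) (U : Finset ι) : ι ⊕ Fin C.size → Option Bool :=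
  C.eval (unst x U) fun g a => if g ∈ E then C.exactVal x U (Sum.inr g) else kleene (C.op g) a

/-- The output `k` has a hazard at the input `x` with the set `U` of unstable variables although the
gates in `E` are ideal: it is constant on the inputs that agree with `x` outside `U`, but it is
unstable in the ternary evaluation. -/
def Circuit.IsHazardE {ι κ : Type} [DecidableEq ι] (C : Circuit ι κ) (E : Finset (Fin C.size))
    (x : ι → Bool) (k : κ) (U : Finset ι) : Prop :=
  C.exactVal x U (C.out k) ≠ none ∧ C.tvalE E x U (C.out k) = none

/-- The input `x` in which the variable `i` has been changed. -/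
def flipAt {ι : Type} [DecidableEq ι] (x : ι → Bool) (i : ι) : ι → Bool :=
  Function.update x i (!x i)

/-- The number with the binary digits `a`. -/
def num {n : ℕ} (a : Fin n → Bool) : ℕ := ∑ i, if a i = true then 2 ^ (i : ℕ) else 0

/-- The input of a circuit with two blocks of `n` inputs. -/
def two {n : ℕ} (a b : Fin n → Bool) : Fin n ⊕ Fin n → Bool := Sum.elim a b

open Classical in
/-- The number of hazards at the input `(x, y)` with `r` unstable bits of the first block when the
gates in `E` are ideal: pairs of an output and a set of `r` inputs of the first block. -/
noncomputable def Circuit.hazardsE {n : ℕ} (C : Circuit (Fin n ⊕ Fin n) (Fin (2 * n)))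
    (E : Finset (Fin C.size)) (x y : Fin n → Bool) (r : ℕ) : ℕ :=
  (univ.filter fun q : Fin (2 * n) × Finset (Fin n) =>
    q.2.card = r ∧ C.IsHazardE E (two x y) q.1 (q.2.map Function.Embedding.inl)).card

open Classical in
/-- The sets of `r` inputs of the first block with which the gate `g` cancels at `(x, y)`. -/
noncomputable def Circuit.cancels {n : ℕ} (C : Circuit (Fin n ⊕ Fin n) (Fin (2 * n)))
    (x y : Fin n → Bool) (r : ℕ) (g : Fin C.size) : Finset (Finset (Fin n)) :=
  univ.filter fun U => U.card = r ∧ C.Cancels (two x y) (U.map Function.Embedding.inl) g

/-- The circuit multiplies numbers with `n` binary digits. -/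
def Circuit.MulNat {n : ℕ} (C : Circuit (Fin n ⊕ Fin n) (Fin (2 * n))) : Prop :=
  ∀ (a b : Fin n → Bool) (k : Fin (2 * n)),
    C.val (two a b) (C.out k) = Nat.testBit (num a * num b) k

/-- The circuit multiplies polynomials of degree less than `n` over the field with two elements. -/
def Circuit.MulPoly {n : ℕ} (C : Circuit (Fin n ⊕ Fin n) (Fin (2 * n))) : Prop :=
  ∀ (a b : Fin n → Bool) (k : Fin (2 * n)), C.val (two a b) (C.out k) = true ↔
    Odd (univ.filter fun i : Fin n × Fin n =>
      (i.1 : ℕ) + i.2 = k ∧ a i.1 = true ∧ b i.2 = true).card

end Pool.Agent.Lib_MP_22d2c8_hz
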