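import Pool.Agent.Lib_MP_22d2c8_few.MulAt
import Pool.Agent.Lib_MP_22d2c8_hz.Uniform

/-!
# Integer multiplication: few hazards at most inputs
-/

namespace Pool.Agent.Lib_MP_22d2c8_hz

open Finset

theorem mul_few_most {n r M : ℕ} (hr : 1 ≤ r) (hM : 1 ≤ M)
    (hn : 2 ^ 20 * M * r ^ 2 * (Nat.log 2 n + 1) * (Nat.log 2 r + 6) ≤ n) :
    ∃ (y : Fin n → Bool) (G : Finset (Fin n → Bool)), 3 * 2 ^ n ≤ 4 * G.card ∧
      ∀ C : Circuit (Fin n ⊕ Fin n) (Fin (2 * n)), C.MulNat → ∀ x ∈ G,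
        128 * (Nat.log 2 r + 6) * C.hazards x y r ≤ n * M ^ r →
          n * (r + 1) ≤ 16 * (Nat.log 2 r + 6) * C.wires ∧
            ((∀ g, C.ar g ≤ 2) → n * r ≤ 16 * (Nat.log 2 r + 6) * C.size) := by
  classical
  have key := mul_few_at hr hM hn
  have hrL : 32 * r ≤ 2 ^ (Nat.log 2 r + 6) := by
    have h1 : r < 2 ^ (Nat.log 2 r + 1) := Nat.lt_pow_succ_log_self (by norm_num) r
    have h2 : 2 ^ (Nat.log 2 r + 6) = 2 ^ (Nat.log 2 r + 1) * 32 := by
      rw [show Nat.log 2 r + 6 = (Nat.log 2 r + 1) + 5 by omega, pow_add]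
      rfl
    omega
  have hL6 : 6 ≤ Nat.log 2 r + 6 := by omega
  generalize Nat.log 2 r + 6 = L at key hn hrL hL6 ⊢
  obtain ⟨T, hT, h⟩ := key
  have hm : 0 < n / (2 * L) := by
    refine Nat.div_pos ?_ (by omega)
    have h1 : 1 ≤ M * r ^ 2 * (Nat.log 2 n + 1) :=
      Nat.mul_pos (Nat.mul_pos hM (by positivity)) (by omega)
    calc 2 * L ≤ 2 ^ 20 * (1 * L) := by omega
      _ ≤ 2 ^ 20 * (M * r ^ 2 * (Nat.log 2 n + 1) * L) :=
        Nat.mul_le_mul_left _ (Nat.mul_le_mul_right _ h1)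
      _ = 2 ^ 20 * M * r ^ 2 * (Nat.log 2 n + 1) * L := by ring
      _ ≤ n := hn
  have : NeZero (n / (2 * L)) := ⟨hm.ne'⟩
  refine ⟨ybits n L T, univ.filter fun x : Fin n → Bool =>
    n / (2 * L) ≤ 2 * (goodOuts L (n / (2 * L)) r (num x * num (ybits n L T))).card,
    most_good (by omega) (Nat.mul_div_le n (2 * L)) hrL T hT, fun C hC x hx => ?_⟩
  refine h C hC x ?_
  have h1 := (mem_filter.1 hx).2
  have h2 : goodOuts L (n / (2 * L)) r (num x * num (ybits n L T)) =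
      (Ico (n / (2 * L)) (2 * (n / (2 * L)))).filter
        (GoodBlock L r (num x * num (ybits n L T))) := by
    ext k
    simp only [goodOuts, GoodBlock, mem_filter]
  rw [← h2]
  exact h1

end Pool.Agent.Lib_MP_22d2c8_hz
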