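import Pool.Agent.Lib_MP_22d2c8_hz.Haz

/-!
# Random sets of inputs
-/

namespace Pool.Agent.Lib_MP_22d2c8_hz

open Finset

/-- The set of the inputs of colour `0`. -/
def zeros {ι : Type} [Fintype ι] {q : ℕ} (χ : ι → Fin q) : Finset ι :=
  univ.filter fun i => (χ i : ℕ) = 0

open Classical in
/-- The probability that `P N` holds for the random set `N` of inputs which contains every input with
probability `1 / q`, independently of the others. -/
noncomputable def rprob {ι : Type} [Fintype ι] (q : ℕ) (P : Finset ι → Prop) : ℝ :=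
  ((univ.filter fun χ : ι → Fin q => P (zeros χ)).card : ℝ) / (q : ℝ) ^ Fintype.card ι

section

variable {ι : Type} [Fintype ι] [DecidableEq ι]

omit [DecidableEq ι] in
theorem mem_zeros {q : ℕ} {χ : ι → Fin q} {i : ι} : i ∈ zeros χ ↔ (χ i : ℕ) = 0 := by
  simp [zeros]

open Classical in
/-- The colour of `i` is independent of the colours of the elements outside `A`, for `i ∈ A`. -/
theorem card_indep {q : ℕ} (hq : 1 ≤ q) (A : Finset ι) (P : Finset ι → Prop) {i : ι} (hi : i ∈ A) :
    q * (univ.filter fun χ : ι → Fin q => (χ i : ℕ) = 0 ∧ P (zeros χ \ A)).card =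
      (univ.filter fun χ : ι → Fin q => P (zeros χ \ A)).card := by
  obtain ⟨q, rfl⟩ : ∃ q', q = q' + 1 := ⟨q - 1, by omega⟩
  have hup : ∀ (χ : ι → Fin (q + 1)) (c : Fin (q + 1)),
      zeros (Function.update χ i c) \ A = zeros χ \ A := by
    intro χ c
    ext j
    rw [mem_sdiff, mem_sdiff, mem_zeros, mem_zeros]
    by_cases hj : j = i
    · subst hj
      simp [hi]
    · rw [Function.update_of_ne hj]
  have hfib : ∀ c : Fin (q + 1),
      (univ.filter fun χ : ι → Fin (q + 1) => χ i = c ∧ P (zeros χ \ A)).card =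
      (univ.filter fun χ : ι → Fin (q + 1) => (χ i : ℕ) = 0 ∧ P (zeros χ \ A)).card := by
    intro c
    refine card_nbij' (fun χ => Function.update χ i 0) (fun χ => Function.update χ i c) ?_ ?_ ?_ ?_
    · intro χ hχ
      simp only [coe_filter, Set.mem_ofPred_eq, mem_univ, true_and] at hχ ⊢
      refine ⟨by simp, ?_⟩
      rw [hup]
      exact hχ.2
    · intro χ hχ
      simp only [coe_filter, Set.mem_ofPred_eq, mem_univ, true_and] at hχ ⊢
      refine ⟨by simp, ?_⟩
      rw [hup]
      exact hχ.2
    · intro χ hχ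
      simp only [coe_filter, Set.mem_ofPred_eq, mem_univ, true_and] at hχ
      simp only [Function.update_idem]
      rw [← hχ.1, Function.update_eq_self]
    · intro χ hχ
      simp only [coe_filter, Set.mem_ofPred_eq, mem_univ, true_and] at hχ
      simp only [Function.update_idem]
      have h1 : χ i = 0 := Fin.ext hχ.1
      rw [← h1, Function.update_eq_self]
  have hsum := card_eq_sum_card_fiberwise
    (s := univ.filter fun χ : ι → Fin (q + 1) => P (zeros χ \ A))
    (t := (univ : Finset (Fin (q + 1)))) (f := fun χ => χ i) (fun χ _ => by simp)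
  rw [hsum]
  have h1 : ∀ c ∈ (univ : Finset (Fin (q + 1))),
      ((univ.filter fun χ : ι → Fin (q + 1) => P (zeros χ \ A)).filter fun χ => χ i = c).card =
      (univ.filter fun χ : ι → Fin (q + 1) => (χ i : ℕ) = 0 ∧ P (zeros χ \ A)).card := by
    intro c _
    rw [← hfib c, filter_filter]
    congr 1
    ext χ
    simp only [mem_filter, mem_univ, true_and]
    tauto
  rw [sum_congr rfl h1, sum_const, card_univ, Fintype.card_fin, smul_eq_mul]

/-- The average over the sets `N`. -/
theorem average {κ : Type} {q : ℕ} (hq : 1 ≤ q) (K : Finset κ) (A : κ → Finset ι) (e W : ℕ)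
    (P : κ → Finset ι → Prop)
    (hW : ∀ (N : Finset ι), ∀ K' ⊆ K, (∀ k ∈ K', e < (A k ∩ N).card) →
      (∀ k ∈ K', P k (N \ A k)) → ∑ k ∈ K', ((A k ∩ N).card - e) ≤ W) :
    ∑ k ∈ K, ((A k).card / q - e : ℝ) * rprob q (fun N => P k (N \ A k)) ≤ W := by
  classical
  set Ω := q ^ Fintype.card ι with hΩ
  have hΩc : (univ : Finset (ι → Fin q)).card = Ω := by
    rw [card_univ, Fintype.card_fun, Fintype.card_fin]
  set E : κ → Finset (ι → Fin q) := fun k => univ.filter fun χ => P k (zeros χ \ A k) with hE
  -- one colouring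
  have hone : ∀ χ : ι → Fin q,
      ∑ k ∈ K, (if χ ∈ E k then (A k ∩ zeros χ).card else 0) ≤
        W + ∑ k ∈ K, (if χ ∈ E k then e else 0) := by
    intro χ
    set N : Finset ι := zeros χ with hN
    set K' := K.filter fun k => χ ∈ E k ∧ e < (A k ∩ N).card with hK'
    have h1 := hW N K' (filter_subset _ _) (fun k hk => (mem_filter.1 hk).2.2)
      (fun k hk => (mem_filter.1 (mem_filter.1 hk).2.1).2)
    refine le_trans ?_ (Nat.add_le_add_right h1 _)
    have h5 : ∑ k ∈ K', ((A k ∩ N).card - e) = ∑ k ∈ K,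
        if χ ∈ E k ∧ e < (A k ∩ N).card then (A k ∩ N).card - e else 0 := sum_filter _ _
    rw [h5, ← sum_add_distrib]
    refine sum_le_sum fun k _ => ?_
    by_cases h2 : χ ∈ E k
    · by_cases h3 : e < (A k ∩ N).card
      · rw [if_pos h2, if_pos ⟨h2, h3⟩, if_pos h2]
        omega
      · rw [if_pos h2, if_neg (fun h => h3 h.2), if_pos h2]
        omega
    · rw [if_neg h2, if_neg h2]
      exact Nat.zero_le _
  -- the sum over the colourings
  have hsum := sum_le_sum (s := (univ : Finset (ι → Fin q))) fun χ _ => hone χ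
  rw [sum_comm, sum_add_distrib, sum_const, hΩc, smul_eq_mul, sum_comm (s := univ)] at hsum
  have hG : ∀ k, ∑ χ : ι → Fin q, (if χ ∈ E k then e else 0) = (E k).card * e := by
    intro k
    rw [← sum_filter, sum_const, smul_eq_mul]
    congr 2
    ext χ
    simp
  have hF : ∀ k, q * ∑ χ : ι → Fin q, (if χ ∈ E k then
      (A k ∩ zeros χ).card else 0) = (A k).card * (E k).card := by
    intro k
    have h1 : ∑ χ : ι → Fin q, (if χ ∈ E k then (A k ∩ zeros χ).card else 0) =
        ∑ i ∈ A k, (univ.filter fun χ : ι → Fin q => (χ i : ℕ) = 0 ∧ P k (zeros χ \ A k)).card := by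
      have h2 : ∀ χ : ι → Fin q, (A k ∩ zeros χ).card =
          ∑ i ∈ A k, if (χ i : ℕ) = 0 then 1 else 0 := by
        intro χ
        rw [← sum_filter, sum_const, smul_eq_mul, mul_one]
        congr 1
        ext i
        simp [mem_zeros]
      rw [← sum_filter]
      have h3 : (univ.filter fun χ => χ ∈ E k) = E k := by ext; simp
      rw [h3]
      simp only [h2]
      rw [sum_comm]
      refine sum_congr rfl fun i _ => ?_
      rw [← sum_filter, sum_const, smul_eq_mul, mul_one]
      congr 1
      ext χ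
      simp only [hE, mem_filter, mem_univ, true_and]
      tauto
    rw [h1, mul_sum]
    rw [sum_congr rfl fun i hi => card_indep hq (A k) (P k) hi, sum_const, smul_eq_mul]
  simp only [hG] at hsum
  have h1 : ∑ k ∈ K, (A k).card * (E k).card ≤ q * (Ω * W + ∑ k ∈ K, (E k).card * e) := by
    rw [← sum_congr rfl fun k _ => hF k, ← mul_sum]
    exact Nat.mul_le_mul_left _ hsum
  have hΩp : (0 : ℝ) < Ω := by
    have : 0 < Ω := by positivity
    exact_mod_cast this
  have hqp : (0 : ℝ) < q := by exact_mod_cast hq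
  have h2 : ∑ k ∈ K, ((A k).card : ℝ) * (E k).card ≤
      q * (Ω * W + ∑ k ∈ K, ((E k).card : ℝ) * e) := by
    exact_mod_cast h1
  have h3 : ∀ k ∈ K, ((A k).card / q - e : ℝ) * rprob q (fun N => P k (N \ A k)) =
      (((A k).card : ℝ) * (E k).card - q * ((E k).card * e)) / (q * Ω) := by
    intro k _
    have h4 : (univ.filter fun χ : ι → Fin q => P k (zeros χ \ A k)) = E k := by
      ext χ
      simp [hE]
    have h5 : rprob q (fun N => P k (N \ A k)) = ((E k).card : ℝ) / Ω := by
      unfold rprob
      rw [hΩ]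
      push_cast
      congr 2
      refine Eq.trans ?_ (congrArg card h4)
      congr 1
      ext χ
      simp only [mem_filter, mem_univ, true_and]
    rw [h5]
    field_simp
  rw [sum_congr rfl h3, ← sum_div, div_le_iff₀ (by positivity), sum_sub_distrib, ← mul_sum]
  linarith

namespace Circuit

variable {κ : Type} (C : Circuit ι κ)

/-- Random hazards. -/
theorem random_hazard (x : ι → Bool) {q e m : ℕ} (hq : 1 ≤ q) (he : 1 ≤ e) (K : Finset κ)
    (A : κ → Finset ι)
    (hAA : ∀ S : Finset ι, e < S.card → (K.filter fun k => S ⊆ A k).card ≤ m)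
    (hs : ∀ k ∈ K, ∀ i ∈ A k, C.val (flipAt x i) (C.out k) ≠ C.val x (C.out k)) :
    ∑ k ∈ K, ((A k).card / q - e : ℝ) *
        rprob q (fun N => C.tval (unst x (N \ A k)) (C.out k) ≠ none) ≤ e * m * C.wires ∧
      ((∀ g, C.ar g ≤ 2) → ∑ k ∈ K, ((A k).card / q - e : ℝ) *
        rprob q (fun N => C.tval (unst x (N \ A k)) (C.out k) ≠ none) ≤ e * m * C.size) := by
  have hmono : ∀ (N U : Finset ι) (w : ι ⊕ Fin C.size), U ⊆ N → C.tval (unst x N) w ≠ none →
      C.tval (unst x U) w ≠ none := by
    intro N U w hU h1 h2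
    refine h1 ?_
    revert h2
    have hx : ∀ U : Finset ι, ∀ i, unst x U i = none ∨ unst x U i = some (x i) := by
      intro U i
      unfold unst
      split_ifs
      · exact Or.inl rfl
      · exact Or.inr rfl
    refine C.induct (p := fun w => C.tval (unst x U) w = none → C.tval (unst x N) w = none) ?_ ?_ w
    · intro i hi
      rw [tval_inl, unst] at hi ⊢
      by_cases hiU : i ∈ U
      · rw [if_pos (hU hiU)]
      · rw [if_neg hiU] at hi
        exact absurd hi (by simp)
    · intro g hg hi
      rw [tval_inr] at hi ⊢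
      refine kleene_mono _ _ _ (fun j => ?_) hi
      rcases C.tval_sound (unst x N) x (hx _) (C.src g j) with h2 | h2
      · exact Or.inl h2
      · rcases C.tval_sound (unst x U) x (hx _) (C.src g j) with h3 | h3
        · exact Or.inl (hg j h3)
        · right
          show C.tval (unst x N) (C.src g j) = C.tval (unst x U) (C.src g j)
          rw [h2, h3]
  have key : ∀ (N : Finset ι), ∀ K' ⊆ K, (∀ k ∈ K', e < (A k ∩ N).card) →
      (∀ k ∈ K', C.tval (unst x (N \ A k)) (C.out k) ≠ none) →
      ∑ k ∈ K', min (A k ∩ N).card (e * ((A k ∩ N).card + 1)) ≤ e * (m * C.wires) ∧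
      ((∀ g, C.ar g ≤ 2) →
        ∑ k ∈ K', min ((A k ∩ N).card - e) (e * (A k ∩ N).card) ≤ e * (m * C.size)) := by
    intro N K' hK' h1 h2
    refine C.hazard_bound x N K' A (fun k => (A k ∩ N).card) he h1
      (fun S hS => le_trans (card_le_card (filter_subset_filter _ hK')) (hAA S hS))
      (fun k hk => hs k (hK' hk))
      (fun k hk => by have := h1 k hk; omega) (fun k hk U hUN _ hUA => ?_)
    refine hmono (N \ A k) U _ (fun i hi => mem_sdiff.2 ⟨hUN hi, fun hiA => ?_⟩) (h2 k hk)
    exact disjoint_left.1 hUA hi hiA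
  have e1 : ∀ k (N : Finset ι), min (A k ∩ N).card (e * ((A k ∩ N).card + 1)) =
      (A k ∩ N).card := fun k N => by
    refine min_eq_left ?_
    calc (A k ∩ N).card ≤ 1 * ((A k ∩ N).card + 1) := by omega
      _ ≤ _ := Nat.mul_le_mul_right _ he
  have e2 : ∀ k (N : Finset ι), min ((A k ∩ N).card - e) (e * (A k ∩ N).card) =
      (A k ∩ N).card - e := fun k N => by
    refine min_eq_left ?_
    calc (A k ∩ N).card - e ≤ 1 * (A k ∩ N).card := by omega
      _ ≤ _ := Nat.mul_le_mul_right _ he
  simp only [e1, e2] at key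
  constructor
  · have h := average hq K A e (e * (m * C.wires))
      (fun k N => C.tval (unst x N) (C.out k) ≠ none)
      fun N K' hK' h1 h2 => (sum_le_sum fun k _ => Nat.sub_le _ _).trans (key N K' hK' h1 h2).1
    refine h.trans (le_of_eq ?_)
    push_cast
    ring
  · intro h3
    have h := average hq K A e (e * (m * C.size))
      (fun k N => C.tval (unst x N) (C.out k) ≠ none)
      fun N K' hK' h1 h2 => (key N K' hK' h1 h2).2 h3
    refine h.trans (le_of_eq ?_)
    push_cast
    ring

end Circuit

end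

end Pool.Agent.Lib_MP_22d2c8_hz
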