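import Pool.Agent.Lib_MP_22d2c8_hz.Rand

/-!
# Irrelevant inputs
-/

namespace Pool.Agent.Lib_MP_22d2c8_hz

open Finset

namespace Circuit

/-- The set of the inputs from which there is a path to the vertex. -/
def below {ι κ : Type} [DecidableEq ι] (C : Circuit ι κ) : ι ⊕ Fin C.size → Finset ι :=
  C.eval (fun i => {i}) fun _ s => univ.biUnion s

variable {ι κ : Type} (C : Circuit ι κ) [DecidableEq ι]

theorem below_inl (i : ι) : C.below (Sum.inl i) = {i} := C.eval_inl _ _ _

theorem below_inr (g : Fin C.size) :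
    C.below (Sum.inr g) = univ.biUnion fun j => C.below (C.src g j) := C.eval_inr _ _ _

/-- The value of a vertex depends only on the inputs below it. -/
theorem val_congr {x y : ι → Bool} (w : ι ⊕ Fin C.size) (h : ∀ i ∈ C.below w, x i = y i) :
    C.val x w = C.val y w := by
  revert h
  refine C.induct (p := fun w => (∀ i ∈ C.below w, x i = y i) → C.val x w = C.val y w) ?_ ?_ w
  · intro i h
    rw [val_inl, val_inl]
    exact h i (by rw [below_inl]; exact mem_singleton_self i)
  · intro g hg h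
    rw [val_inr, val_inr]
    congr 1
    funext j
    refine hg j fun i hi => h i ?_
    rw [below_inr]
    exact mem_biUnion.2 ⟨j, mem_univ _, hi⟩

theorem mem_below {x : ι → Bool} {i : ι} {w : ι ⊕ Fin C.size}
    (h : C.val (flipAt x i) w ≠ C.val x w) : i ∈ C.below w := by
  by_contra hi
  refine h (C.val_congr w fun j hj => ?_)
  unfold flipAt
  rw [Function.update_of_ne]
  rintro rfl
  exact hi hj

variable [Fintype ι]

/-- Restriction to the inputs in `N`. -/
theorem restricted (N : Finset ι) (K : Finset κ) (A : κ → Finset ι) {e m : ℕ} (he : 1 ≤ e)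
    (hA : ∀ k ∈ K, e < (A k ∩ N).card)
    (hAA : ∀ S : Finset ι, e < S.card → (K.filter fun k => S ⊆ A k).card ≤ m)
    (hb : ∀ k ∈ K, C.below (C.out k) ∩ N = A k ∩ N) :
    ∑ k ∈ K, (A k ∩ N).card ≤ e * (m * C.wires) ∧
      ((∀ g, C.ar g ≤ 2) → ∑ k ∈ K, ((A k ∩ N).card - e) ≤ e * (m * C.size)) := by
  classical
  have hL : ∀ k ∈ K, L (fun w z => ∃ i ∈ z, i ∈ N ∧ i ∈ C.below w) (C.out k) = A k ∩ N := by
    intro k hk
    ext i
    rw [mem_L, ← hb k hk, mem_inter]
    constructor
    · rintro ⟨j, hj, hjN, hjb⟩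
      rw [mem_singleton.1 hj] at hjN hjb
      exact ⟨hjb, hjN⟩
    · rintro ⟨hib, hiN⟩
      exact ⟨i, mem_singleton_self i, hiN, hib⟩
  have key := wires_ge (pred := C.pred) (c := fun w z => ∃ i ∈ z, i ∈ N ∧ i ∈ C.below w)
    (A := fun k => A k ∩ N) he C.pred_lt
    (fun i z h => by
      obtain ⟨j, hj, -, hjb⟩ := h
      rw [below_inl, mem_singleton] at hjb
      exact hjb ▸ hj)
    (fun i z hi h => by
      obtain ⟨j, hj, hjN, hjb⟩ := h
      rw [mem_singleton] at hj
      subst hj
      exact ⟨j, hi, hjN, hjb⟩)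
    (fun _ => True) (fun _ => trivial)
    (fun g z z' _ _ hw h => by
      obtain ⟨i, hi, hiN, hib⟩ := h
      rw [below_inr] at hib
      obtain ⟨j, -, hj⟩ := mem_biUnion.1 hib
      obtain ⟨i', hi', hiN', hib'⟩ := hw (C.src g j) (C.mem_pred.2 ⟨j, rfl⟩) ⟨i, hi, hiN, hj⟩
      refine ⟨i', hi', hiN', ?_⟩
      rw [below_inr]
      exact mem_biUnion.2 ⟨j, mem_univ _, hib'⟩)
    univ (fun _ _ _ => mem_univ _) K (fun S hS => le_trans (card_le_card fun k hk => by
      rw [mem_filter] at hk ⊢
      exact ⟨hk.1, hk.2.trans inter_subset_left⟩) (hAA S hS))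
    hA C.out hL (fun k => (A k ∩ N).card) (fun _ _ _ _ => trivial) (fun k hk z _ hzA h => by
      obtain ⟨i, hi, hiN, hib⟩ := h
      have h1 : i ∈ A k ∩ N := by
        rw [← hb k hk]
        exact mem_inter.2 ⟨hib, hiN⟩
      exact disjoint_left.1 hzA hi h1)
  have e1 : ∀ k, min (A k ∩ N).card (e * ((A k ∩ N).card + 1)) =
      (A k ∩ N).card := fun k => by
    refine min_eq_left ?_
    calc (A k ∩ N).card ≤ 1 * ((A k ∩ N).card + 1) := by omega
      _ ≤ _ := Nat.mul_le_mul_right _ he
  have e2 : ∀ k, min ((A k ∩ N).card - e) (e * (A k ∩ N).card) =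
      (A k ∩ N).card - e := fun k => by
    refine min_eq_left ?_
    calc (A k ∩ N).card - e ≤ 1 * (A k ∩ N).card := by omega
      _ ≤ _ := Nat.mul_le_mul_right _ he
  simp only [e1, e2] at key
  refine ⟨key.1.trans (Nat.mul_le_mul_left _ (Nat.mul_le_mul_left _
    (sum_le_sum fun g _ => C.card_pred_le g))), fun h2 => ?_⟩
  have h3 := key.2 fun g _ => (C.card_pred_le g).trans (h2 g)
  rwa [card_univ, Fintype.card_fin] at h3

end Circuit

section

variable {ι : Type} [Fintype ι] [DecidableEq ι]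

/-- The probability that the random set `N` does not meet the set `R`. -/
theorem rprob_disjoint {q : ℕ} (hq : 1 ≤ q) (R : Finset ι) :
    rprob q (fun N => Disjoint N R) = (1 - 1 / (q : ℝ)) ^ R.card := by
  classical
  obtain ⟨q, rfl⟩ : ∃ q', q = q' + 1 := ⟨q - 1, by omega⟩
  have h0 : (univ.filter fun χ : ι → Fin (q + 1) => Disjoint (zeros χ) R) =
      Fintype.piFinset fun j => if j ∈ R then (univ : Finset (Fin (q + 1))).erase 0 else univ := by
    ext χ
    rw [mem_filter, Fintype.mem_piFinset, disjoint_left]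
    constructor
    · rintro ⟨-, h⟩ j
      by_cases hj : j ∈ R
      · rw [if_pos hj, mem_erase]
        refine ⟨fun e => h (mem_zeros.2 ?_) hj, mem_univ _⟩
        rw [e]
        rfl
      · rw [if_neg hj]
        exact mem_univ _
    · intro h
      refine ⟨mem_univ _, fun j hj hjR => ?_⟩
      have h2 := h j
      rw [if_pos hjR, mem_erase] at h2
      exact h2.1 (Fin.ext (mem_zeros.1 hj))
  have h1 : ∀ j : ι, (if j ∈ R then (univ : Finset (Fin (q + 1))).erase 0 else univ).card =
      if j ∈ R then q else q + 1 := by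
    intro j
    split_ifs
    · rw [card_erase_of_mem (mem_univ _), card_univ, Fintype.card_fin]
      rfl
    · rw [card_univ, Fintype.card_fin]
  have h2 : (univ.filter fun j => j ∈ R) = R := by ext; simp
  have h3 : (univ.filter fun j => j ∉ R).card + R.card = Fintype.card ι := by
    have h4 := card_filter_add_card_filter_not (s := (univ : Finset ι)) (fun j => j ∈ R)
    rw [h2, card_univ] at h4
    omega
  have h4 : (univ.filter fun χ : ι → Fin (q + 1) => Disjoint (zeros χ) R).card *
      (q + 1) ^ R.card = q ^ R.card * (q + 1) ^ Fintype.card ι := by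
    rw [h0, Fintype.card_piFinset]
    simp only [h1]
    rw [prod_ite, prod_const, prod_const, h2, ← h3, pow_add, mul_assoc]
  have h5 : ((univ.filter fun χ : ι → Fin (q + 1) => Disjoint (zeros χ) R).card : ℝ) *
      ((q : ℝ) + 1) ^ R.card = (q : ℝ) ^ R.card * ((q : ℝ) + 1) ^ Fintype.card ι := by
    exact_mod_cast h4
  have h6 : rprob (q + 1) (fun N => Disjoint N R) =
      ((univ.filter fun χ : ι → Fin (q + 1) => Disjoint (zeros χ) R).card : ℝ) /
        ((q : ℝ) + 1) ^ Fintype.card ι := by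
    unfold rprob
    push_cast
    congr 2
    congr 1
    ext χ
    simp only [mem_filter, mem_univ, true_and]
  have h7 : (1 - 1 / ((q + 1 : ℕ) : ℝ)) = (q : ℝ) / ((q : ℝ) + 1) := by
    push_cast
    field_simp
    ring
  rw [h6, h7, div_pow, div_eq_div_iff (by positivity) (by positivity), h5]

end

namespace Circuit

variable {ι κ : Type} (C : Circuit ι κ) [Fintype ι] [DecidableEq ι]

/-- Irrelevant inputs. -/
theorem spurious_bound {q e m : ℕ} (hq : 1 ≤ q) (he : 1 ≤ e) (K : Finset κ) (A : κ → Finset ι)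
    (hAA : ∀ S : Finset ι, e < S.card → (K.filter fun k => S ⊆ A k).card ≤ m)
    (hs : ∀ k ∈ K, ∀ i ∈ A k, ∃ x, C.val (flipAt x i) (C.out k) ≠ C.val x (C.out k)) :
    ∑ k ∈ K, ((A k).card / q - e : ℝ) * (1 - 1 / (q : ℝ)) ^ (C.below (C.out k) \ A k).card ≤
        e * m * C.wires ∧
      ((∀ g, C.ar g ≤ 2) → ∑ k ∈ K, ((A k).card / q - e : ℝ) *
        (1 - 1 / (q : ℝ)) ^ (C.below (C.out k) \ A k).card ≤ e * m * C.size) := by
  have hAb : ∀ k ∈ K, A k ⊆ C.below (C.out k) := by
    intro k hk i hi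
    obtain ⟨x, hx⟩ := hs k hk i hi
    exact C.mem_below hx
  have hP : ∀ k, rprob q (fun N => Disjoint (N \ A k) (C.below (C.out k))) =
      (1 - 1 / (q : ℝ)) ^ (C.below (C.out k) \ A k).card := by
    intro k
    rw [← rprob_disjoint hq]
    congr 1
    funext N
    rw [disjoint_left, disjoint_left]
    simp only [mem_sdiff]
    exact propext ⟨fun h i hi h' => h ⟨hi, h'.2⟩ h'.1, fun h i hi h' => h hi.1 ⟨h', hi.2⟩⟩
  have key : ∀ (N : Finset ι), ∀ K' ⊆ K, (∀ k ∈ K', e < (A k ∩ N).card) →
      (∀ k ∈ K', Disjoint (N \ A k) (C.below (C.out k))) →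
      ∑ k ∈ K', (A k ∩ N).card ≤ e * (m * C.wires) ∧
      ((∀ g, C.ar g ≤ 2) → ∑ k ∈ K', ((A k ∩ N).card - e) ≤ e * (m * C.size)) := by
    intro N K' hK' h1 h2
    refine C.restricted N K' A he h1
      (fun S hS => le_trans (card_le_card (filter_subset_filter _ hK')) (hAA S hS))
      (fun k hk => ?_)
    ext i
    rw [mem_inter, mem_inter]
    constructor
    · rintro ⟨h3, h4⟩
      refine ⟨?_, h4⟩
      by_contra h5
      exact disjoint_left.1 (h2 k hk) (mem_sdiff.2 ⟨h4, h5⟩) h3
    · rintro ⟨h3, h4⟩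
      exact ⟨hAb k (hK' hk) h3, h4⟩
  simp only [← hP]
  constructor
  · have h := average hq K A e (e * (m * C.wires))
      (fun k N => Disjoint N (C.below (C.out k)))
      fun N K' hK' h1 h2 => (sum_le_sum fun k _ => Nat.sub_le _ _).trans (key N K' hK' h1 h2).1
    refine h.trans (le_of_eq ?_)
    push_cast
    ring
  · intro h3
    have h := average hq K A e (e * (m * C.size))
      (fun k N => Disjoint N (C.below (C.out k)))
      fun N K' hK' h1 h2 => (key N K' hK' h1 h2).2 h3
    refine h.trans (le_of_eq ?_)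
    push_cast
    ring

end Circuit

end Pool.Agent.Lib_MP_22d2c8_hz
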